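import Mathlib

/-!
# Linearised polynomials: basic facts

`K` is a finite field with `q` elements; the linearised polynomial with coefficient sequence `f`
is `x ↦ ∑ t < k, f t * x ^ q ^ t`.
-/

namespace Pool.Agent.Q202.Gab

open Finset

universe u v

section Frob

variable (K : Type u) [Field K] [Fintype K] {A : Type v} [CommRing A] [Algebra K A]

/-- The `t`-th power of the Frobenius map, as an algebra homomorphism. -/
noncomputable def fr (A : Type v) [CommRing A] [Algebra K A] (t : ℕ) : A →ₐ[K] A :=
  (FiniteField.frobeniusAlgHom K A) ^ t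

theorem fr_apply (t : ℕ) (x : A) : fr K A t x = x ^ Fintype.card K ^ t := by
  induction t with
  | zero => simp [fr]
  | succ n ih =>
    have h : fr K A (n + 1) x = FiniteField.frobeniusAlgHom K A (fr K A n x) := by
      unfold fr
      rw [pow_succ']
      rfl
    rw [h, ih, FiniteField.coe_frobeniusAlgHom, pow_succ, pow_mul]

theorem sum_pow {β : Type*} (s : Finset β) (x : β → A) (t : ℕ) :
    (∑ b ∈ s, x b) ^ Fintype.card K ^ t = ∑ b ∈ s, x b ^ Fintype.card K ^ t := by
  simp only [← fr_apply, map_sum]

theorem add_pow' (x y : A) (t : ℕ) :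
    (x + y) ^ Fintype.card K ^ t = x ^ Fintype.card K ^ t + y ^ Fintype.card K ^ t := by
  simp only [← fr_apply, map_add]

theorem smul_pow' (c : K) (x : A) (t : ℕ) :
    (c • x) ^ Fintype.card K ^ t = c • x ^ Fintype.card K ^ t := by
  simp only [← fr_apply, map_smul]

theorem one_lt_q : 1 < Fintype.card K := Fintype.one_lt_card

/-- A linearised polynomial with many independent zeros vanishes. -/
theorem root_count [IsDomain A] {β : Type*} (J : Finset β) (x : β → A)
    (hx : ∀ c : β → K, ∑ j ∈ J, c j • x j = 0 → ∀ j ∈ J, c j = 0)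
    (k : ℕ) (hk : k ≤ J.card) (f : ℕ → A)
    (hf : ∀ j ∈ J, ∑ t ∈ range k, f t * x j ^ Fintype.card K ^ t = 0) :
    ∀ t < k, f t = 0 := by
  classical
  set q := Fintype.card K with hq
  have hq1 : 1 < q := one_lt_q K
  set P : Polynomial A := ∑ t ∈ range k, Polynomial.C (f t) * Polynomial.X ^ q ^ t with hP
  have hcoef : ∀ t < k, P.coeff (q ^ t) = f t := by
    intro t ht
    rw [hP, Polynomial.finsetSum_coeff]
    rw [Finset.sum_eq_single t]
    · simp
    · intro b _ hb
      rw [Polynomial.coeff_C_mul_X_pow]
      rw [if_neg]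
      intro h
      exact hb ((Nat.pow_right_injective hq1 h).symm)
    · intro h
      exact absurd (mem_range.2 ht) h
  have hdeg : P.natDegree ≤ q ^ (k - 1) := by
    rw [hP]
    apply Polynomial.natDegree_sum_le_of_forall_le
    intro t ht
    refine (Polynomial.natDegree_C_mul_X_pow_le _ _).trans ?_
    exact Nat.pow_le_pow_right (by omega) (by have := mem_range.1 ht; omega)
  rcases Nat.eq_zero_or_pos k with h0 | hpos
  · intro t ht; omega
  have hP0 : P = 0 := by
    by_contra hne
    -- the values
    let y : (J → K) → A := fun c => ∑ j : J, c j • x j.1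
    have hyinj : Function.Injective y := by
      intro c d hcd
      have h1 : ∑ j ∈ J, (fun b => if h : b ∈ J then c ⟨b, h⟩ - d ⟨b, h⟩ else 0) j • x j = 0 := by
        rw [← Finset.sum_coe_sort J]
        have h2 : y c - y d = 0 := sub_eq_zero.2 hcd
        rw [← h2]
        simp only [y, ← Finset.sum_sub_distrib, ← sub_smul]
        apply Finset.sum_congr rfl
        intro j _
        simp
      funext j
      have h3 := hx _ h1 j.1 j.2
      simp only [j.2, dif_pos] at h3
      exact sub_eq_zero.1 h3
    have hroot : ∀ c : J → K, P.IsRoot (y c) := by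
      intro c
      rw [Polynomial.IsRoot, hP, Polynomial.eval_finsetSum]
      have h1 : ∀ t ∈ range k, Polynomial.eval (y c) (Polynomial.C (f t) * Polynomial.X ^ q ^ t)
          = ∑ j : J, c j • (f t * x j.1 ^ q ^ t) := by
        intro t _
        simp only [Polynomial.eval_mul, Polynomial.eval_C, Polynomial.eval_pow, Polynomial.eval_X, y]
        rw [hq, sum_pow K]
        rw [Finset.mul_sum]
        apply Finset.sum_congr rfl
        intro j _
        rw [smul_pow' K, mul_smul_comm]
      rw [Finset.sum_congr rfl h1, Finset.sum_comm]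
      apply Finset.sum_eq_zero
      intro j _
      rw [← Finset.smul_sum, hf j.1 j.2, smul_zero]
    have hcard : Fintype.card (J → K) ≤ P.roots.toFinset.card := by
      rw [← Finset.card_univ, ← Finset.card_image_of_injective _ hyinj]
      apply Finset.card_le_card
      intro z hz
      rw [Finset.mem_image] at hz
      obtain ⟨c, _, rfl⟩ := hz
      rw [Multiset.mem_toFinset, Polynomial.mem_roots hne]
      exact hroot c
    have h1 : q ^ J.card ≤ q ^ (k - 1) := by
      calc q ^ J.card = Fintype.card (J → K) := by simp [hq]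
        _ ≤ P.roots.toFinset.card := hcard
        _ ≤ P.roots.card := Multiset.toFinset_card_le _
        _ ≤ P.natDegree := Polynomial.card_roots' P
        _ ≤ _ := hdeg
    have h2 : J.card ≤ k - 1 := (Nat.pow_le_pow_iff_right hq1).1 h1
    omega
  intro t ht
  rw [← hcoef t ht, hP0, Polynomial.coeff_zero]

end Frob

end Pool.Agent.Q202.Gab
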