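import Mathlib

/-!
# Enlarging the zero sets to size `k - 1`
-/

namespace Pool.Agent.Q202.Gab

open Finset

/-- The intersection of the sets `Z i`, `i ∈ Ω`. -/
def cap {n k : ℕ} (Z : Fin k → Finset (Fin n)) (Ω : Finset (Fin k)) : Finset (Fin n) :=
  univ.filter (fun j => ∀ i ∈ Ω, j ∈ Z i)

theorem mem_cap {n k : ℕ} {Z : Fin k → Finset (Fin n)} {Ω : Finset (Fin k)} {j : Fin n} :
    j ∈ cap Z Ω ↔ ∀ i ∈ Ω, j ∈ Z i := by simp [cap]

theorem cap_anti {n k : ℕ} {Z : Fin k → Finset (Fin n)} {Ω Ω' : Finset (Fin k)} (h : Ω ⊆ Ω') :
    cap Z Ω' ⊆ cap Z Ω := fun _ hj => mem_cap.2 (fun i hi => mem_cap.1 hj i (h hi))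

theorem exists_ext {n k : ℕ} (hkn : k ≤ n) (Z : Fin k → Finset (Fin n))
    (hZ : ∀ Ω : Finset (Fin k), Ω.Nonempty → (cap Z Ω).card + Ω.card ≤ k) :
    ∃ Z' : Fin k → Finset (Fin n),
      (∀ Ω : Finset (Fin k), Ω.Nonempty → (cap Z' Ω).card + Ω.card ≤ k) ∧
      (∀ i, Z i ⊆ Z' i) ∧ ∀ i, (Z' i).card = k - 1 := by
  classical
  let S : Finset (Fin k → Finset (Fin n)) := univ.filter (fun Z' =>
    (∀ Ω : Finset (Fin k), Ω.Nonempty → (cap Z' Ω).card + Ω.card ≤ k) ∧ ∀ i, Z i ⊆ Z' i)
  have hSne : S.Nonempty := ⟨Z, by simp only [S, mem_filter]; exact ⟨mem_univ _, hZ, fun i => Subset.rfl⟩⟩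
  obtain ⟨Y, hYS, hmax⟩ := Finset.exists_max_image S (fun Y => ∑ i, (Y i).card) hSne
  have hY := (Finset.mem_filter.1 hYS).2
  refine ⟨Y, hY.1, hY.2, ?_⟩
  intro i
  have hsing : cap Y {i} = Y i := by
    ext j; rw [mem_cap]; simp
  have hle : (Y i).card + 1 ≤ k := by
    have := hY.1 {i} ⟨i, by simp⟩
    rw [hsing, Finset.card_singleton] at this
    exact this
  by_contra hne
  have hlt : (Y i).card + 1 < k := by omega
  -- tight sets
  have htight : ∀ j, j ∉ Y i → ∃ Ω : Finset (Fin k), i ∈ Ω ∧ (cap Y Ω).card + Ω.card = k ∧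
      ∀ i' ∈ Ω, i' ≠ i → j ∈ Y i' := by
    intro j hj
    by_contra hcon
    push Not at hcon
    let Y' : Fin k → Finset (Fin n) := Function.update Y i (insert j (Y i))
    have hYY' : ∀ i', Y i' ⊆ Y' i' := by
      intro i'
      by_cases h : i' = i
      · subst h
        simp only [Y', Function.update_self]
        exact Finset.subset_insert _ _
      · simp only [Y', Function.update_of_ne h]
        exact Subset.rfl
    have hY'S : Y' ∈ S := by
      simp only [S, mem_filter]
      refine ⟨mem_univ _, ?_, fun i' => (hY.2 i').trans (hYY' i')⟩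
      intro Ω hΩ
      have hbase := hY.1 Ω hΩ
      by_cases hiΩ : i ∈ Ω
      · by_cases hall : ∀ i' ∈ Ω, i' ≠ i → j ∈ Y i'
        · have hneq : (cap Y Ω).card + Ω.card ≠ k := by
            intro h
            obtain ⟨i', h1, h2, h3⟩ := hcon Ω hiΩ h
            exact h3 (hall i' h1 h2)
          have hsub : cap Y' Ω ⊆ insert j (cap Y Ω) := by
            intro l hl
            rw [Finset.mem_insert]
            by_cases hlj : l = j
            · exact Or.inl hlj
            · right
              rw [mem_cap] at hl ⊢
              intro i' hi'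
              have h1 := hl i' hi'
              by_cases h : i' = i
              · subst h
                simp only [Y', Function.update_self, Finset.mem_insert] at h1
                exact h1.resolve_left hlj
              · simp only [Y', Function.update_of_ne h] at h1
                exact h1
          have h2 := (Finset.card_le_card hsub).trans (Finset.card_insert_le _ _)
          omega
        · push Not at hall
          obtain ⟨i', hi', hne', hji'⟩ := hall
          have hsub : cap Y' Ω ⊆ cap Y Ω := by
            intro l hl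
            rw [mem_cap] at hl ⊢
            have hlj : l ≠ j := by
              rintro rfl
              have h1 := hl i' hi'
              simp only [Y', Function.update_of_ne hne'] at h1
              exact hji' h1
            intro i'' hi''
            have h1 := hl i'' hi''
            by_cases h : i'' = i
            · subst h
              simp only [Y', Function.update_self, Finset.mem_insert] at h1
              exact h1.resolve_left hlj
            · simp only [Y', Function.update_of_ne h] at h1
              exact h1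
          have := Finset.card_le_card hsub
          omega
      · have hsub : cap Y' Ω ⊆ cap Y Ω := by
          intro l hl
          rw [mem_cap] at hl ⊢
          intro i'' hi''
          have h1 := hl i'' hi''
          have h : i'' ≠ i := by rintro rfl; exact hiΩ hi''
          simp only [Y', Function.update_of_ne h] at h1
          exact h1
        have := Finset.card_le_card hsub
        omega
    have h1 := hmax Y' hY'S
    have h2 : ∑ i', (Y i').card < ∑ i', (Y' i').card := by
      apply Finset.sum_lt_sum
      · intro i' _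
        exact Finset.card_le_card (hYY' i')
      · refine ⟨i, mem_univ _, ?_⟩
        simp only [Y', Function.update_self]
        rw [Finset.card_insert_of_notMem hj]
        omega
    omega
  -- the minimal tight set containing i
  let TS : Finset (Finset (Fin k)) := univ.filter (fun Ω => i ∈ Ω ∧ (cap Y Ω).card + Ω.card = k)
  obtain ⟨j0, hj0⟩ : ∃ j, j ∉ Y i := by
    by_contra hcon
    push Not at hcon
    have : Y i = univ := Finset.eq_univ_iff_forall.2 hcon
    rw [this, Finset.card_univ, Fintype.card_fin] at hlt
    omega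
  obtain ⟨Ω0, h1, h2, _⟩ := htight j0 hj0
  obtain ⟨T, hTS, hTmin⟩ := Finset.exists_min_image TS (fun Ω => Ω.card)
    ⟨Ω0, by simp only [TS, mem_filter]; exact ⟨mem_univ _, h1, h2⟩⟩
  have hT := (Finset.mem_filter.1 hTS).2
  have hTsub : ∀ Ω : Finset (Fin k), i ∈ Ω → (cap Y Ω).card + Ω.card = k → T ⊆ Ω := by
    intro Ω hi hΩ
    have hint : (cap Y (T ∩ Ω)).card + (T ∩ Ω).card = k := by
      have h3 := hY.1 (T ∪ Ω) ⟨i, Finset.mem_union_left _ hT.1⟩
      have h4 := hY.1 (T ∩ Ω) ⟨i, Finset.mem_inter.2 ⟨hT.1, hi⟩⟩
      have h5 : cap Y T ∩ cap Y Ω ⊆ cap Y (T ∪ Ω) := by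
        intro l hl
        rw [Finset.mem_inter, mem_cap, mem_cap] at hl
        rw [mem_cap]
        intro i' hi'
        rcases Finset.mem_union.1 hi' with h | h
        · exact hl.1 i' h
        · exact hl.2 i' h
      have h6 : cap Y T ∪ cap Y Ω ⊆ cap Y (T ∩ Ω) :=
        Finset.union_subset (cap_anti Finset.inter_subset_left) (cap_anti Finset.inter_subset_right)
      have h7 := Finset.card_union_add_card_inter (cap Y T) (cap Y Ω)
      have h8 := Finset.card_union_add_card_inter T Ω
      have h9 := Finset.card_le_card h5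
      have h10 := Finset.card_le_card h6
      have h11 := hT.2
      omega
    have h3 := hTmin (T ∩ Ω) (by
      simp only [TS, mem_filter]
      exact ⟨mem_univ _, Finset.mem_inter.2 ⟨hT.1, hi⟩, hint⟩)
    have h4 : T ∩ Ω = T := Finset.eq_of_subset_of_card_le Finset.inter_subset_left h3
    rw [← h4]
    exact Finset.inter_subset_right
  have hTne : (T.erase i).Nonempty := by
    rw [Finset.nonempty_iff_ne_empty]
    intro h
    have hTi : T = {i} := by
      rw [← Finset.insert_erase hT.1, h]
      simp
    have h3 := hT.2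
    rw [hTi, hsing, Finset.card_singleton] at h3
    omega
  have hW := hY.1 _ hTne
  have hcompl : (Y i)ᶜ ⊆ cap Y (T.erase i) := by
    intro j hj
    rw [Finset.mem_compl] at hj
    obtain ⟨Ω, h3, h4, h5⟩ := htight j hj
    rw [mem_cap]
    intro i' hi'
    rw [Finset.mem_erase] at hi'
    exact h5 i' (hTsub Ω h3 h4 hi'.2) hi'.1
  have hcapT : cap Y T ⊆ Y i := by
    intro j hj
    exact mem_cap.1 hj i hT.1
  have hdisj : Disjoint (cap Y T) (Y i)ᶜ := by
    rw [Finset.disjoint_left]
    intro j hj hj2
    exact (Finset.mem_compl.1 hj2) (hcapT hj)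
  have h3 : (cap Y T ∪ (Y i)ᶜ).card ≤ (cap Y (T.erase i)).card :=
    Finset.card_le_card (Finset.union_subset (cap_anti (Finset.erase_subset _ _)) hcompl)
  rw [Finset.card_union_of_disjoint hdisj, Finset.card_compl, Fintype.card_fin] at h3
  have h4 := Finset.card_erase_add_one hT.1
  have h5 := hT.2
  omega

end Pool.Agent.Q202.Gab
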