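import Pool.Agent.Q202.Gab.Basic

/-!
# Moore matrices and duality
-/

namespace Pool.Agent.Q202.Gab

open Finset

universe u v

variable (K : Type u) [Field K] [Fintype K] {A : Type v} [CommRing A] [IsDomain A] [Algebra K A]

/-- Linear independence over `K` on a finite set of indices. -/
def LI {β : Type*} (J : Finset β) (x : β → A) : Prop :=
  ∀ c : β → K, ∑ j ∈ J, c j • x j = 0 → ∀ j ∈ J, c j = 0

omit [Fintype K] [IsDomain A] in
theorem LI.mono {β : Type*} {J J' : Finset β} (hJ : J' ⊆ J) {x : β → A}
    (h : LI K J x) : LI K J' x := by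
  classical
  intro c hc j hj
  have h1 := h (fun b => if b ∈ J' then c b else 0) (by
    rw [← hc, ← Finset.sum_subset hJ]
    · apply Finset.sum_congr rfl
      intro b hb
      rw [if_pos hb]
    · intro b _ hb
      rw [if_neg hb, zero_smul]) j (hJ hj)
  rwa [if_pos hj] at h1

omit [Fintype K] [IsDomain A] in
theorem li_iff {n : ℕ} (x : Fin n → A) : LI K univ x ↔ LinearIndependent K x := by
  rw [Fintype.linearIndependent_iff]
  constructor
  · intro h c hc j
    exact h c hc j (mem_univ _)
  · intro h c hc j _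
    exact h c hc j

/-- A square Moore matrix on independent elements is nonsingular. -/
theorem moore_det_ne_zero {m : ℕ} (z : Fin m → A) (hz : LI K univ z) :
    (Matrix.of fun t i : Fin m => z i ^ Fintype.card K ^ (t : ℕ)).det ≠ 0 := by
  classical
  intro h
  rw [← Matrix.exists_vecMul_eq_zero_iff] at h
  obtain ⟨v, hv, hM⟩ := h
  apply hv
  have h1 := root_count K univ z hz m (by simp) (fun t => if h : t < m then v ⟨t, h⟩ else 0) (by
    intro j _
    rw [Finset.sum_range]
    have h2 := congrFun hM j
    simp only [Matrix.vecMul, dotProduct, Matrix.of_apply, Pi.zero_apply] at h2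
    rw [← h2]
    apply Finset.sum_congr rfl
    intro t _
    simp [t.2])
  funext t
  have h2 := h1 t.1 t.2
  simp only [t.2, dif_pos] at h2
  exact h2

theorem moore_right {β : Type*} (J : Finset β) (z : β → A) (hz : LI K J z) (y : β → A)
    (hy : ∀ t < J.card, ∑ j ∈ J, y j * z j ^ Fintype.card K ^ t = 0) : ∀ j ∈ J, y j = 0 := by
  classical
  let e := J.equivFin
  have hz' : LI K univ (fun i : Fin J.card => z (e.symm i).1) := by
    intro c hc i _
    have h1 := hz (fun b => if h : b ∈ J then c (e ⟨b, h⟩) else 0) (by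
      rw [← hc, ← Finset.sum_coe_sort J]
      rw [← Equiv.sum_comp e.symm]
      apply Finset.sum_congr rfl
      intro i _
      simp) (e.symm i).1 (e.symm i).2
    simpa using h1
  have hdet := moore_det_ne_zero K _ hz'
  have h1 := Matrix.eq_zero_of_mulVec_eq_zero hdet (v := fun i => y (e.symm i).1) (by
    funext t
    simp only [Matrix.mulVec, dotProduct, Matrix.of_apply, Pi.zero_apply]
    have h2 := hy t.1 t.2
    rw [← Finset.sum_coe_sort J, ← Equiv.sum_comp e.symm] at h2
    rw [← h2]
    exact Finset.sum_congr rfl (fun i _ => mul_comm _ _))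
  intro j hj
  have h2 := congrFun h1 (e ⟨j, hj⟩)
  simpa using h2

/-- Roots. -/
def HasRoots (A : Type v) [CommRing A] (q : ℕ) : Prop := ∀ (t : ℕ) (x : A), ∃ y, y ^ q ^ t = x

omit [IsDomain A] in
theorem li_root {n : ℕ} {x x' : Fin n → A} {a : ℕ} (hx : LI K univ x)
    (h : ∀ j, x' j ^ Fintype.card K ^ a = x j) : LI K univ x' := by
  intro c hc j hj
  apply hx c _ j hj
  have h1 : (∑ j ∈ univ, c j • x' j) ^ Fintype.card K ^ a = (0 : A) ^ Fintype.card K ^ a := by
    rw [hc]
  rw [sum_pow K, zero_pow (pow_ne_zero _ Fintype.card_ne_zero)] at h1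
  rw [← h1]
  apply Finset.sum_congr rfl
  intro j _
  rw [smul_pow' K, h j]

/-- Duality: the orthogonal of a Moore matrix is a Moore matrix. -/
theorem dual_exists (hroot : HasRoots A (Fintype.card K)) {n a b : ℕ} (hab : a + b = n)
    (x : Fin n → A) (hx : LI K univ x) :
    ∃ y : Fin n → A, LI K univ y ∧ ∀ t < a, ∀ s < b,
      ∑ j, y j ^ Fintype.card K ^ t * x j ^ Fintype.card K ^ s = 0 := by
  classical
  set q := Fintype.card K with hq
  rcases Nat.eq_zero_or_pos a with rfl | ha
  · exact ⟨x, hx, fun t ht => absurd ht (Nat.not_lt_zero _)⟩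
  choose x' hx' using fun j => hroot (a - 1) (x j)
  have hx'li : LI K univ x' := li_root K hx hx'
  let M : Matrix (Fin n) (Fin n) A := Matrix.of fun u j =>
    if u.1 + 1 < n then x' j ^ q ^ u.1 else 0
  have hn : 0 < n := by omega
  have hdet : M.det = 0 := by
    apply Matrix.det_eq_zero_of_row_eq_zero (⟨n - 1, by omega⟩ : Fin n)
    intro j
    simp only [M, Matrix.of_apply]
    rw [if_neg]
    omega
  rw [← Matrix.exists_mulVec_eq_zero_iff] at hdet
  obtain ⟨y, hy0, hy⟩ := hdet
  have hker : ∀ u, u + 1 < n → ∑ j, y j * x' j ^ q ^ u = 0 := by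
    intro u hu
    have h1 := congrFun hy ⟨u, by omega⟩
    simp only [Matrix.mulVec, dotProduct, M, Matrix.of_apply, Pi.zero_apply] at h1
    rw [← h1]
    apply Finset.sum_congr rfl
    intro j _
    rw [if_pos hu, mul_comm]
  refine ⟨y, ?_, ?_⟩
  · intro c hc j0 _
    by_contra hcj
    apply hy0
    -- normalise
    have hyj0 : y j0 = ∑ j ∈ univ.erase j0, (-(c j0)⁻¹ * c j) • y j := by
      rw [← Finset.add_sum_erase _ _ (mem_univ j0)] at hc
      have h1 : c j0 • y j0 = - ∑ j ∈ univ.erase j0, c j • y j := eq_neg_of_add_eq_zero_left hc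
      have h2 : y j0 = (c j0)⁻¹ • (c j0 • y j0) := by rw [smul_smul, inv_mul_cancel₀ hcj, one_smul]
      rw [h2, h1, smul_neg, Finset.smul_sum, ← Finset.sum_neg_distrib]
      apply Finset.sum_congr rfl
      intro j _
      rw [smul_smul, neg_mul, neg_smul]
    let d : Fin n → K := fun j => -(c j0)⁻¹ * c j
    let z : Fin n → A := fun j => x' j + d j • x' j0
    have hz : LI K (univ.erase j0) z := by
      intro e he j hj
      have h1 := hx'li (fun b => if b = j0 then ∑ j ∈ univ.erase j0, e j * d j else e b) (by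
        rw [← Finset.add_sum_erase _ _ (mem_univ j0)]
        rw [if_pos rfl, Finset.sum_smul]
        rw [← he, ← Finset.sum_add_distrib]
        apply Finset.sum_congr rfl
        intro b hb
        rw [if_neg (Finset.mem_erase.1 hb).1]
        simp only [z, smul_add, smul_smul]
        rw [add_comm]) j (mem_univ _)
      rwa [if_neg (Finset.mem_erase.1 hj).1] at h1
    have hcard : (univ.erase j0 : Finset (Fin n)).card = n - 1 := by
      rw [Finset.card_erase_of_mem (mem_univ _)]; simp
    have hzero : ∀ j ∈ univ.erase j0, y j = 0 := by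
      apply moore_right K _ z hz
      intro t ht
      rw [hcard] at ht
      have h1 := hker t (by omega)
      rw [← Finset.add_sum_erase _ _ (mem_univ j0), hyj0, Finset.sum_mul,
        ← Finset.sum_add_distrib] at h1
      rw [← h1]
      apply Finset.sum_congr rfl
      intro j _
      simp only [z, d]
      rw [add_pow' K, smul_pow' K]
      rw [mul_add, smul_mul_assoc, mul_smul_comm]
      rw [add_comm]
    funext j
    by_cases hj : j = j0
    · subst hj
      rw [hyj0]
      exact Finset.sum_eq_zero (fun b hb => by rw [hzero b hb, smul_zero])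
    · exact hzero j (Finset.mem_erase.2 ⟨hj, mem_univ _⟩)
  · intro t ht s hs
    have h1 : ∑ j, y j ^ q ^ t * x j ^ q ^ s = (∑ j, y j * x' j ^ q ^ (s + (a - 1) - t)) ^ q ^ t := by
      rw [sum_pow K]
      apply Finset.sum_congr rfl
      intro j _
      rw [mul_pow]
      congr 1
      rw [← pow_mul, ← pow_add, ← hx' j, ← pow_mul, ← pow_add]
      congr 2
      omega
    rw [h1, hker _ (by omega), zero_pow (pow_ne_zero _ Fintype.card_ne_zero)]

end Pool.Agent.Q202.Gab
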