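import Mathlib

/-!
# Systems of linearised conditions and extension of scalars
-/

namespace Pool.Agent.Q202.Gab

open Finset

universe u v w

/-- A dependency: vectors `f i` (for `i ∈ I`) of length `k`, the first `s i` coordinates of `f i`
vanish, the linearised polynomial `f i` vanishes at `x j` for `j ∈ Z i`, and the sum of the
vectors is zero. -/
structure Sol {A : Type u} [CommRing A] {ι : Type w} (q : ℕ) (x : ℕ → A) (k : ℕ) (I : Finset ι)
    (Z : ι → Finset ℕ) (s : ι → ℕ) (f : ι → ℕ → A) : Prop where
  low : ∀ i ∈ I, ∀ t < k, t < s i → f i t = 0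
  ev : ∀ i ∈ I, ∀ j ∈ Z i, ∑ t ∈ range k, f i t * x j ^ q ^ t = 0
  sum : ∀ t < k, ∑ i ∈ I, f i t = 0

/-- There is no nontrivial dependency. -/
def Ind {A : Type u} [CommRing A] {ι : Type w} (q : ℕ) (x : ℕ → A) (k : ℕ) (I : Finset ι)
    (Z : ι → Finset ℕ) (s : ι → ℕ) : Prop :=
  ∀ f : ι → ℕ → A, Sol q x k I Z s f → ∀ i ∈ I, ∀ t < k, f i t = 0

theorem Ind.ext {A : Type u} {B : Type v} [CommRing A] [IsDomain A] [CommRing B] [IsDomain B]
    (φ : A →+* B) (hφ : Function.Injective φ) {ι : Type w} {q : ℕ} {x : ℕ → A} {k : ℕ}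
    {I : Finset ι} {Z : ι → Finset ℕ} {s : ι → ℕ} (h : Ind q x k I Z s) :
    Ind q (fun j => φ (x j)) k I Z s := by
  classical
  intro f hf i0 hi0 t0 ht0
  let L := FractionRing B
  let KK := FractionRing A
  have hinj : Function.Injective ((algebraMap B L).comp φ) := by
    rw [RingHom.coe_comp]
    exact (IsFractionRing.injective B L).comp hφ
  let ψ : KK →+* L := IsFractionRing.lift hinj
  have hψ : ∀ a : A, ψ (algebraMap A KK a) = algebraMap B L (φ a) := by
    intro a
    exact IsFractionRing.lift_algebraMap hinj a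
  letI : Algebra KK L := ψ.toAlgebra
  have hsm : ∀ (a : A) (y : L), (algebraMap B L (φ a)) * y = (algebraMap A KK a) • y := by
    intro a y
    rw [Algebra.smul_def]
    congr 1
    exact (hψ a).symm
  apply IsFractionRing.injective B L
  rw [map_zero]
  rw [← Module.forall_dual_apply_eq_zero_iff KK]
  intro lam
  -- clear denominators
  let S : Finset (ι × ℕ) := I ×ˢ range k
  obtain ⟨d, hd⟩ := IsLocalization.exist_integer_multiples (nonZeroDivisors A) S
    (fun p => lam (algebraMap B L (f p.1 p.2)))
  have hd' : ∀ i ∈ I, ∀ t < k, ∃ a : A, algebraMap A KK a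
      = algebraMap A KK (d : A) * lam (algebraMap B L (f i t)) := by
    intro i hi t ht
    obtain ⟨a, ha⟩ := hd (i, t) (by simp [S, hi, ht])
    refine ⟨a, ?_⟩
    rw [ha, Algebra.smul_def]
  let g : ι → ℕ → A := fun i t => if hh : i ∈ I ∧ t < k then (hd' i hh.1 t hh.2).choose else 0
  have hg : ∀ i ∈ I, ∀ t < k, algebraMap A KK (g i t)
      = algebraMap A KK (d : A) * lam (algebraMap B L (f i t)) := by
    intro i hi t ht
    have : g i t = (hd' i hi t ht).choose := by
      simp only [g]
      rw [dif_pos ⟨hi, ht⟩]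
    rw [this]
    exact (hd' i hi t ht).choose_spec
  have hAinj := IsFractionRing.injective A KK
  have hsol : Sol q x k I Z s g := by
    refine ⟨?_, ?_, ?_⟩
    · intro i hi t ht hts
      apply hAinj
      rw [hg i hi t ht, hf.low i hi t ht hts]
      simp
    · intro i hi j hj
      apply hAinj
      rw [map_zero, map_sum]
      have h1 : ∀ t ∈ range k, algebraMap A KK (g i t * x j ^ q ^ t)
          = algebraMap A KK (d : A) * lam (algebraMap B L (f i t * φ (x j) ^ q ^ t)) := by
        intro t ht
        rw [map_mul, hg i hi t (mem_range.1 ht)]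
        rw [mul_assoc]
        congr 1
        have h2 : algebraMap B L (f i t * φ (x j) ^ q ^ t)
            = (algebraMap A KK (x j ^ q ^ t)) • algebraMap B L (f i t) := by
          rw [← hsm, map_pow φ, map_mul, mul_comm]
        rw [h2, map_smul, smul_eq_mul, mul_comm]
      rw [Finset.sum_congr rfl h1, ← Finset.mul_sum, ← map_sum, ← map_sum, hf.ev i hi j hj]
      simp
    · intro t ht
      apply hAinj
      rw [map_zero, map_sum]
      rw [Finset.sum_congr rfl (fun i hi => hg i hi t ht), ← Finset.mul_sum, ← map_sum, ← map_sum,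
        hf.sum t ht]
      simp
  have h3 := h g hsol i0 hi0 t0 ht0
  have h4 := hg i0 hi0 t0 ht0
  rw [h3, map_zero] at h4
  have hdne : algebraMap A KK (d : A) ≠ 0 := by
    intro h5
    have : (d : A) = 0 := hAinj (by rw [h5, map_zero])
    exact nonZeroDivisors.ne_zero d.2 this
  rcases mul_eq_zero.1 h4.symm with h5 | h5
  · exact absurd h5 hdne
  · exact h5

end Pool.Agent.Q202.Gab
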