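import Pool.Agent.Q202.Gab.Spec

/-!
# Generic independence of spaces of linearised polynomials with prescribed zeros
-/

namespace Pool.Agent.Q202.Gab

open Finset MvPolynomial

universe u w

variable {ι : Type w} [DecidableEq ι]

/-- The intersection of the sets `Z i`, `i ∈ Ω` (for nonempty `Ω`). -/
def inter (Ω : Finset ι) (Z : ι → Finset ℕ) : Finset ℕ :=
  (Ω.biUnion Z).filter (fun j => ∀ i ∈ Ω, j ∈ Z i)

omit [DecidableEq ι] in
theorem mem_inter {Ω : Finset ι} (hΩ : Ω.Nonempty) {Z : ι → Finset ℕ} {j : ℕ} :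
    j ∈ inter Ω Z ↔ ∀ i ∈ Ω, j ∈ Z i := by
  unfold inter
  rw [Finset.mem_filter, Finset.mem_biUnion]
  constructor
  · exact fun h => h.2
  · intro h
    obtain ⟨i, hi⟩ := hΩ
    exact ⟨⟨i, hi, h i hi⟩, h⟩

/-- The counting condition. -/
def HC (k : ℕ) (I : Finset ι) (Z : ι → Finset ℕ) (s : ι → ℕ) : Prop :=
  ∀ Ω ⊆ I, Ω.Nonempty → ∀ μ, (∀ i ∈ Ω, μ ≤ s i) →
    ∑ i ∈ Ω, (k - ((Z i).card + s i)) + (inter Ω Z).card + μ ≤ k

omit [DecidableEq ι] in
theorem HC.mono {k : ℕ} {I I' : Finset ι} (h : I' ⊆ I) {Z : ι → Finset ℕ} {s : ι → ℕ}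
    (hc : HC k I Z s) : HC k I' Z s := fun Ω hΩ hne μ hμ => hc Ω (hΩ.trans h) hne μ hμ

omit [DecidableEq ι] in
theorem Sol.mono_zero {A : Type u} [CommRing A] {q : ℕ} {x : ℕ → A} {k : ℕ} {I I' : Finset ι}
    {Z : ι → Finset ℕ} {s : ι → ℕ} {f : ι → ℕ → A} (h : Sol q x k I Z s f) (hsub : I' ⊆ I)
    (hz : ∀ t < k, ∑ i ∈ I', f i t = 0) : Sol q x k I' Z s f :=
  ⟨fun i hi t ht hts => h.low i (hsub hi) t ht hts, fun i hi j hj => h.ev i (hsub hi) j hj, hz⟩

/-- Contraction of a tight family. -/
theorem contract {A : Type u} [CommRing A] {q : ℕ} {x : ℕ → A} {k : ℕ} {I : Finset ι}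
    {Z : ι → Finset ℕ} {s : ι → ℕ} {Ω : Finset ι} (hΩI : Ω ⊆ I) {i1 : ι} (hi1 : i1 ∈ Ω) {μ : ℕ}
    (hμ : ∀ i ∈ Ω, μ ≤ s i)
    (h1 : Ind q x k (insert i1 (I \ Ω)) (Function.update Z i1 (inter Ω Z))
      (Function.update s i1 μ))
    (h2 : Ind q x k Ω Z s) : Ind q x k I Z s := by
  classical
  intro f hf
  have hne : Ω.Nonempty := ⟨i1, hi1⟩
  have hnot : i1 ∉ I \ Ω := by simp [hi1]
  let g : ι → ℕ → A := fun i t => if i = i1 then ∑ l ∈ Ω, f l t else f i t
  have hg1 : ∀ t, g i1 t = ∑ l ∈ Ω, f l t := by intro t; simp [g]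
  have hg2 : ∀ i ∈ I \ Ω, ∀ t, g i t = f i t := by
    intro i hi t
    have : i ≠ i1 := by rintro rfl; exact hnot hi
    simp [g, this]
  have hsol : Sol q x k (insert i1 (I \ Ω)) (Function.update Z i1 (inter Ω Z))
      (Function.update s i1 μ) g := by
    refine ⟨?_, ?_, ?_⟩
    · intro i hi t ht hts
      rcases Finset.mem_insert.1 hi with rfl | hi'
      · rw [Function.update_self] at hts
        rw [hg1]
        exact Finset.sum_eq_zero (fun l hl => hf.low l (hΩI hl) t ht (lt_of_lt_of_le hts (hμ l hl)))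
      · have hne1 : i ≠ i1 := by rintro rfl; exact hnot hi'
        rw [Function.update_of_ne hne1] at hts
        rw [hg2 i hi']
        exact hf.low i (Finset.mem_sdiff.1 hi').1 t ht hts
    · intro i hi j hj
      rcases Finset.mem_insert.1 hi with rfl | hi'
      · rw [Function.update_self, mem_inter hne] at hj
        simp only [hg1, Finset.sum_mul]
        rw [Finset.sum_comm]
        exact Finset.sum_eq_zero (fun l hl => hf.ev l (hΩI hl) j (hj l hl))
      · have hne1 : i ≠ i1 := by rintro rfl; exact hnot hi'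
        rw [Function.update_of_ne hne1] at hj
        rw [← hf.ev i (Finset.mem_sdiff.1 hi').1 j hj]
        exact Finset.sum_congr rfl (fun t _ => by rw [hg2 i hi'])
    · intro t ht
      rw [Finset.sum_insert hnot, hg1, Finset.sum_congr rfl (fun i hi => hg2 i hi t),
        add_comm, Finset.sum_sdiff hΩI]
      exact hf.sum t ht
  have hz := h1 g hsol
  have hsum : ∀ t < k, ∑ i ∈ Ω, f i t = 0 := by
    intro t ht
    rw [← hg1]
    exact hz i1 (Finset.mem_insert_self _ _) t ht
  have hΩ0 := h2 f (hf.mono_zero hΩI hsum)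
  intro i hi t ht
  by_cases hiΩ : i ∈ Ω
  · exact hΩ0 i hiΩ t ht
  · have hi' : i ∈ I \ Ω := Finset.mem_sdiff.2 ⟨hi, hiΩ⟩
    rw [← hg2 i hi']
    exact hz i (Finset.mem_insert_of_mem hi') t ht

/-- The counting condition for the contracted family. -/
theorem HC.contract {k : ℕ} {I : Finset ι} {Z : ι → Finset ℕ} {s : ι → ℕ} (hc : HC k I Z s)
    {Ω : Finset ι} (hΩI : Ω ⊆ I) {i1 : ι} (hi1 : i1 ∈ Ω) {μ : ℕ} (hμ : ∀ i ∈ Ω, μ ≤ s i)
    (htight : k ≤ ∑ i ∈ Ω, (k - ((Z i).card + s i)) + (inter Ω Z).card + μ) :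
    HC k (insert i1 (I \ Ω)) (Function.update Z i1 (inter Ω Z)) (Function.update s i1 μ) := by
  classical
  have hne : Ω.Nonempty := ⟨i1, hi1⟩
  have heq : ∑ i ∈ Ω, (k - ((Z i).card + s i)) + (inter Ω Z).card + μ = k :=
    le_antisymm (hc Ω hΩI hne μ hμ) htight
  intro Ω' hΩ' hne' μ' hμ'
  by_cases h1 : i1 ∈ Ω'
  · set W := Ω'.erase i1 with hW
    have hWsub : W ⊆ I \ Ω := by
      intro i hi
      rw [hW, Finset.mem_erase] at hi
      rcases Finset.mem_insert.1 (hΩ' hi.2) with h | h
      · exact absurd h hi.1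
      · exact h
    have hdisj : Disjoint Ω W := by
      rw [Finset.disjoint_left]
      intro i hi hi2
      exact (Finset.mem_sdiff.1 (hWsub hi2)).2 hi
    have hWne : ∀ i ∈ W, i ≠ i1 := fun i hi => (Finset.mem_erase.1 hi).1
    have hsum : ∑ i ∈ Ω', (k - ((Function.update Z i1 (inter Ω Z) i).card
        + Function.update s i1 μ i)) = (k - ((inter Ω Z).card + μ))
        + ∑ i ∈ W, (k - ((Z i).card + s i)) := by
      rw [← Finset.add_sum_erase _ _ h1]
      congr 1
      · rw [Function.update_self, Function.update_self]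
      · apply Finset.sum_congr rfl
        intro i hi
        rw [Function.update_of_ne (hWne i hi), Function.update_of_ne (hWne i hi)]
    have hinter : inter Ω' (Function.update Z i1 (inter Ω Z)) = inter (Ω ∪ W) Z := by
      ext j
      rw [mem_inter hne', mem_inter (hne.mono Finset.subset_union_left)]
      constructor
      · intro h i hi
        rcases Finset.mem_union.1 hi with hi | hi
        · have h2 := h i1 h1
          rw [Function.update_self, mem_inter hne] at h2
          exact h2 i hi
        · have h2 := h i (Finset.mem_of_mem_erase hi)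
          rwa [Function.update_of_ne (hWne i hi)] at h2
      · intro h i hi
        by_cases hii : i = i1
        · subst hii
          rw [Function.update_self, mem_inter hne]
          exact fun l hl => h l (Finset.mem_union_left _ hl)
        · rw [Function.update_of_ne hii]
          exact h i (Finset.mem_union_right _ (Finset.mem_erase.2 ⟨hii, hi⟩))
    have hμ1 : μ' ≤ μ := by
      have := hμ' i1 h1
      rwa [Function.update_self] at this
    have hbig := hc (Ω ∪ W) (Finset.union_subset hΩI (hWsub.trans Finset.sdiff_subset))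
      (hne.mono Finset.subset_union_left) μ' (by
        intro i hi
        rcases Finset.mem_union.1 hi with hi | hi
        · exact hμ1.trans (hμ i hi)
        · have := hμ' i (Finset.mem_of_mem_erase hi)
          rwa [Function.update_of_ne (hWne i hi)] at this)
    rw [Finset.sum_union hdisj] at hbig
    rw [hsum, hinter]
    omega
  · have hsub : Ω' ⊆ I \ Ω := by
      intro i hi
      rcases Finset.mem_insert.1 (hΩ' hi) with h | h
      · subst h; exact absurd hi h1
      · exact h
    have hnei : ∀ i ∈ Ω', i ≠ i1 := by rintro i hi rfl; exact h1 hi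
    have hinter : inter Ω' (Function.update Z i1 (inter Ω Z)) = inter Ω' Z := by
      ext j
      rw [mem_inter hne', mem_inter hne']
      constructor
      · intro h i hi
        have := h i hi
        rwa [Function.update_of_ne (hnei i hi)] at this
      · intro h i hi
        rw [Function.update_of_ne (hnei i hi)]
        exact h i hi
    have hbig := hc Ω' (hsub.trans Finset.sdiff_subset) hne' μ' (by
      intro i hi
      have := hμ' i hi
      rwa [Function.update_of_ne (hnei i hi)] at this)
    rw [hinter]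
    have hsum : ∑ i ∈ Ω', (k - ((Function.update Z i1 (inter Ω Z) i).card
        + Function.update s i1 μ i)) = ∑ i ∈ Ω', (k - ((Z i).card + s i)) := by
      apply Finset.sum_congr rfl
      intro i hi
      rw [Function.update_of_ne (hnei i hi), Function.update_of_ne (hnei i hi)]
    rw [hsum]
    exact hbig

end Pool.Agent.Q202.Gab
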