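import Pool.Agent.Q202.Gab.Dual

/-!
# Minimal codewords of the code with a Moore parity check matrix
-/

namespace Pool.Agent.Q202.Gab

open Finset

universe u v

/-- The cofactor of the `l`-th column. -/
def kap (q : ℕ) {A : Type v} [CommRing A] {n r : ℕ} (w : Fin n → A) (e : Fin (r + 1) → Fin n)
    (l : Fin (r + 1)) : A :=
  (-1) ^ (r + (l : ℕ)) *
    (Matrix.of fun t l' : Fin r => w (e (l.succAbove l')) ^ q ^ (t : ℕ)).det

/-- The codeword of cofactors, supported on the range of `e`. -/
def row (q : ℕ) {A : Type v} [CommRing A] {n r : ℕ} (w : Fin n → A) (e : Fin (r + 1) → Fin n)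
    (j : Fin n) : A :=
  ∑ l, if e l = j then kap q w e l else 0

section
variable {A : Type v} [CommRing A] {n r : ℕ} {q : ℕ}

theorem row_map {B : Type u} [CommRing B] (φ : A →+* B) (w : Fin n → A)
    (e : Fin (r + 1) → Fin n) (j : Fin n) :
    φ (row q w e j) = row q (fun l => φ (w l)) e j := by
  unfold row
  rw [map_sum]
  apply Finset.sum_congr rfl
  intro l _
  split_ifs
  · unfold kap
    rw [map_mul, map_pow, map_neg, map_one, RingHom.map_det]
    congr 2
    ext t l'
    simp
  · exact map_zero φ

theorem row_apply {w : Fin n → A} {e : Fin (r + 1) → Fin n} (he : Function.Injective e)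
    (l : Fin (r + 1)) : row q w e (e l) = kap q w e l := by
  unfold row
  rw [Finset.sum_eq_single l]
  · rw [if_pos rfl]
  · intro b _ hb
    rw [if_neg]
    intro h
    exact hb (he h)
  · intro h; exact absurd (mem_univ _) h

theorem row_eq_zero {w : Fin n → A} {e : Fin (r + 1) → Fin n} {j : Fin n}
    (hj : ∀ l, e l ≠ j) : row q w e j = 0 :=
  Finset.sum_eq_zero (fun l _ => if_neg (hj l))

theorem row_sum (w : Fin n → A) (e : Fin (r + 1) → Fin n) (v : Fin n → A) :
    ∑ j, row q w e j * v j = ∑ l, kap q w e l * v (e l) := by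
  unfold row
  simp only [Finset.sum_mul]
  rw [Finset.sum_comm]
  apply Finset.sum_congr rfl
  intro l _
  rw [Finset.sum_eq_single (e l)]
  · rw [if_pos rfl]
  · intro b _ hb
    rw [if_neg hb.symm, zero_mul]
  · intro h; exact absurd (mem_univ _) h

theorem row_parity (w : Fin n → A) (e : Fin (r + 1) → Fin n) {t : ℕ} (ht : t < r) :
    ∑ j, row q w e j * w j ^ q ^ t = 0 := by
  rw [row_sum]
  let N : Matrix (Fin (r + 1)) (Fin (r + 1)) A := Matrix.of fun a l =>
    if a = Fin.last r then w (e l) ^ q ^ t else w (e l) ^ q ^ (a : ℕ)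
  have h0 : N.det = 0 := by
    have hne : (⟨t, by omega⟩ : Fin (r + 1)) ≠ Fin.last r := by
      intro h
      have := congrArg Fin.val h
      simp at this
      omega
    apply Matrix.det_zero_of_row_eq hne
    funext l
    simp only [N, Matrix.of_apply, if_neg hne, if_true]
  rw [Matrix.det_succ_row N (Fin.last r)] at h0
  rw [← h0]
  apply Finset.sum_congr rfl
  intro l _
  unfold kap
  have h1 : N.submatrix (Fin.last r).succAbove l.succAbove
      = Matrix.of fun t l' : Fin r => w (e (l.succAbove l')) ^ q ^ (t : ℕ) := by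
    ext a b
    simp only [Matrix.submatrix_apply, N, Matrix.of_apply, Fin.succAbove_last]
    rw [if_neg]
    · simp
    · exact (Fin.castSucc_lt_last a).ne
  rw [h1]
  have h2 : N (Fin.last r) l = w (e l) ^ q ^ t := by
    simp only [N, Matrix.of_apply, if_true]
  rw [h2, Fin.val_last]
  ring

end

section
variable (K : Type u) [Field K] [Fintype K] {A : Type v} [CommRing A] [IsDomain A] [Algebra K A]
  {n r : ℕ}

omit [Fintype K] [IsDomain A] in
theorem li_comp {m : ℕ} {w : Fin n → A} (hw : LI K univ w) {e : Fin m → Fin n}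
    (he : Function.Injective e) : LI K univ (fun i => w (e i)) := by
  rw [li_iff] at hw ⊢
  exact hw.comp e he

theorem kap_ne_zero {w : Fin n → A} (hw : LI K univ w) {e : Fin (r + 1) → Fin n}
    (he : Function.Injective e) (l : Fin (r + 1)) : kap (Fintype.card K) w e l ≠ 0 := by
  unfold kap
  apply mul_ne_zero
  · exact pow_ne_zero _ (neg_ne_zero.2 one_ne_zero)
  · exact moore_det_ne_zero K _ (li_comp K (li_comp K hw he) Fin.succAbove_right_injective)

/-- Codewords supported on the range of `e` are proportional to the cofactor codeword. -/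
theorem row_unique {w : Fin n → A} (hw : LI K univ w) {e : Fin (r + 1) → Fin n}
    (he : Function.Injective e) {c : Fin n → A} (hc : ∀ j, (∀ l, e l ≠ j) → c j = 0)
    (hp : ∀ t < r, ∑ j, c j * w j ^ Fintype.card K ^ t = 0) (j : Fin n) :
    kap (Fintype.card K) w e 0 * c j = c (e 0) * row (Fintype.card K) w e j := by
  classical
  set q := Fintype.card K with hq
  let d : Fin n → A := fun j => kap q w e 0 * c j - c (e 0) * row q w e j
  have hd0 : d (e 0) = 0 := by
    simp only [d]
    rw [row_apply he]
    ring
  have hd1 : ∀ j, (∀ l, e l ≠ j) → d j = 0 := by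
    intro j hj
    simp only [d]
    rw [hc j hj, row_eq_zero hj]
    ring
  let J : Finset (Fin n) := (univ.image e).erase (e 0)
  have hJ : J.card = r := by
    rw [Finset.card_erase_of_mem (Finset.mem_image_of_mem e (mem_univ _)),
      Finset.card_image_of_injective _ he]
    simp
  have hdJ : ∀ j, j ∉ J → d j = 0 := by
    intro j hj
    by_cases h1 : j = e 0
    · rw [h1]; exact hd0
    · apply hd1
      rintro l rfl
      exact hj (Finset.mem_erase.2 ⟨h1, Finset.mem_image_of_mem e (mem_univ _)⟩)
  have hall : ∀ j ∈ J, d j = 0 := by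
    apply moore_right K J w (hw.mono K (subset_univ _))
    intro t ht
    rw [hJ] at ht
    rw [Finset.sum_subset (subset_univ J) (fun j _ hj => by rw [hdJ j hj, zero_mul])]
    have h1 : ∀ j ∈ univ, d j * w j ^ q ^ t
        = kap q w e 0 * (c j * w j ^ q ^ t) - c (e 0) * (row q w e j * w j ^ q ^ t) := by
      intro j _
      simp only [d]
      ring
    rw [Finset.sum_congr rfl h1, Finset.sum_sub_distrib, ← Finset.mul_sum, ← Finset.mul_sum,
      hp t ht, row_parity w e ht]
    ring
  have hz : d j = 0 := by
    by_cases h1 : j ∈ J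
    · exact hall j h1
    · exact hdJ j h1
  exact sub_eq_zero.1 hz

end

end Pool.Agent.Q202.Gab
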