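import Pool.Agent.Q202.Gab.Main1
import Pool.Agent.Q202.Gab.Row

/-!
# The minimal codewords of a generic code are independent
-/

namespace Pool.Agent.Q202.Gab

open Finset

universe u v

/-- The condition `(∗)`. -/
def Star {n k : ℕ} (Z : Fin k → Finset (Fin n)) : Prop :=
  ∀ Ω : Finset (Fin k), Ω.Nonempty →
    (univ.filter (fun j => ∀ i ∈ Ω, j ∈ Z i)).card + Ω.card ≤ k

theorem star_hc {n k : ℕ} {Z : Fin k → Finset (Fin n)} (hZ : Star Z)
    (hcard : ∀ i, (Z i).card = k - 1) (hk : 0 < k) :
    HC k (univ : Finset (Fin k)) (fun i => (Z i).map Fin.valEmbedding) (fun _ => 0) := by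
  classical
  intro Ω _ hne μ hμ
  have hμ0 : μ = 0 := by
    obtain ⟨i, hi⟩ := hne
    have h0 : μ ≤ 0 := hμ i hi
    omega
  subst hμ0
  have h1 : ∑ i ∈ Ω, (k - (((Z i).map Fin.valEmbedding).card + 0)) = Ω.card := by
    rw [Finset.card_eq_sum_ones]
    apply Finset.sum_congr rfl
    intro i _
    rw [Finset.card_map, hcard]
    omega
  have h2 : (inter Ω (fun i => (Z i).map Fin.valEmbedding)).card
      ≤ (univ.filter (fun j : Fin n => ∀ i ∈ Ω, j ∈ Z i)).card := by
    rw [← Finset.card_map Fin.valEmbedding]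
    apply Finset.card_le_card
    intro l hl
    rw [mem_inter hne] at hl
    obtain ⟨i0, hi0⟩ := hne
    have h3 := hl i0 hi0
    rw [Finset.mem_map] at h3
    obtain ⟨j, _, rfl⟩ := h3
    rw [Finset.mem_map]
    refine ⟨j, ?_, rfl⟩
    rw [Finset.mem_filter]
    refine ⟨mem_univ _, fun i hi => ?_⟩
    have h4 := hl i hi
    rw [Finset.mem_map] at h4
    obtain ⟨j', hj', h5⟩ := h4
    have : j' = j := Fin.valEmbedding.injective h5
    rwa [this] at hj'
  have := hZ Ω hne
  rw [h1]
  omega

variable (K : Type u) [Field K] [Fintype K]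

theorem generic_aux {n k r : ℕ} (hnk : k + r = n) (hk : 0 < k) (Z : Fin k → Finset (Fin n))
    (hZ : Star Z) (hcard : ∀ i, (Z i).card = k - 1) (e : Fin k → Fin (r + 1) → Fin n)
    (he : ∀ i, Function.Injective (e i)) (heZ : ∀ i l, e i l ∉ Z i)
    (L : Type v) [Field L] [Algebra K L] (φ : MvPolynomial ℕ K →+* L)
    (hφ : Function.Injective φ) (hφK : ∀ a : K, φ (algebraMap K _ a) = algebraMap K L a)
    (hroot : HasRoots L (Fintype.card K)) :
    ∃ (w : Fin n → L), LI K univ w ∧
      LinearIndependent L (fun i => row (Fintype.card K) w (e i)) := by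
  classical
  set q := Fintype.card K with hq
  have hind0 := generic_ind (K := K) _ k (univ : Finset (Fin k)) (univ.map (Fin.valEmbedding (n := n)))
    (fun i => (Z i).map Fin.valEmbedding) (fun _ => 0) le_rfl
    (fun i _ => Finset.map_subset_map.2 (subset_univ _))
    (fun i _ => by
      show ((Z i).map Fin.valEmbedding).card + 0 < k
      rw [Finset.card_map, hcard]
      omega) (star_hc hZ hcard hk)
  have hind := hind0.ext φ hφ
  let g : Fin n → L := fun j => φ (MvPolynomial.X (j : ℕ))
  have hg : LI K univ g := by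
    intro c hc j _
    have h1 : φ (∑ j : Fin n, c j • (MvPolynomial.X (j : ℕ) : MvPolynomial ℕ K)) = 0 := by
      rw [map_sum, ← hc]
      apply Finset.sum_congr rfl
      intro b _
      simp only [g]
      rw [Algebra.smul_def, Algebra.smul_def, map_mul, hφK]
    have h2 := (injective_iff_map_eq_zero φ).1 hφ _ h1
    have h3 := X_indep (univ.map (Fin.valEmbedding (n := n)))
      (fun l => if h : l < n then c ⟨l, h⟩ else 0) (by
        rw [Finset.sum_map, ← h2]
        apply Finset.sum_congr rfl
        intro b _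
        simp) (j : ℕ) (by simp)
    simpa using h3
  obtain ⟨w, hw, hpar⟩ := dual_exists K hroot (by omega : r + k = n) g hg
  refine ⟨w, hw, ?_⟩
  -- primal vectors
  have hf : ∀ i : Fin k, ∃ f : Fin k → L, f ≠ 0 ∧ ∀ j ∈ Z i, ∑ t, f t * g j ^ q ^ (t : ℕ) = 0 := by
    intro i
    let F : (Fin k → L) →ₗ[L] (Z i → L) := LinearMap.pi (fun j =>
      ∑ t : Fin k, (g j.1 ^ q ^ (t : ℕ)) • LinearMap.proj t)
    have hker : LinearMap.ker F ≠ ⊥ := by
      apply LinearMap.ker_ne_bot_of_finrank_lt
      rw [Module.finrank_fintype_fun_eq_card, Module.finrank_fintype_fun_eq_card]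
      rw [Fintype.card_coe, hcard, Fintype.card_fin]
      omega
    obtain ⟨f, hf1, hf2⟩ := Submodule.exists_mem_ne_zero_of_ne_bot hker
    refine ⟨f, hf2, ?_⟩
    intro j hj
    have h1 := congrFun (LinearMap.mem_ker.1 hf1) ⟨j, hj⟩
    simp only [F, LinearMap.pi_apply, LinearMap.sum_apply, LinearMap.smul_apply,
      LinearMap.proj_apply, smul_eq_mul, Pi.zero_apply] at h1
    rw [← h1]
    exact Finset.sum_congr rfl (fun t _ => mul_comm _ _)
  choose f hf0 hfZ using hf
  let c : Fin k → Fin n → L := fun i j => ∑ t, f i t * g j ^ q ^ (t : ℕ)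
  have hcpar : ∀ i, ∀ t < r, ∑ j, c i j * w j ^ q ^ t = 0 := by
    intro i t ht
    simp only [c, Finset.sum_mul]
    rw [Finset.sum_comm]
    apply Finset.sum_eq_zero
    intro s _
    have h1 := hpar t ht s s.2
    have h2 : ∀ j ∈ univ, f i s * g j ^ q ^ (s : ℕ) * w j ^ q ^ t
        = f i s * (w j ^ q ^ t * g j ^ q ^ (s : ℕ)) := fun j _ => by ring
    rw [Finset.sum_congr rfl h2, ← Finset.mul_sum, h1, mul_zero]
  have hcsupp : ∀ i j, (∀ l, e i l ≠ j) → c i j = 0 := by
    intro i j hj
    apply hfZ
    by_contra hjZ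
    -- range of e i is the complement of Z i
    have h1 : univ.image (e i) = (Z i)ᶜ := by
      apply Finset.eq_of_subset_of_card_le
      · intro x hx
        obtain ⟨l, _, rfl⟩ := Finset.mem_image.1 hx
        exact Finset.mem_compl.2 (heZ i l)
      · rw [Finset.card_compl, hcard, Finset.card_image_of_injective _ (he i)]
        simp
        omega
    have h2 : j ∈ univ.image (e i) := by rw [h1]; exact Finset.mem_compl.2 hjZ
    obtain ⟨l, _, hl⟩ := Finset.mem_image.1 h2
    exact hj l hl
  have huniq : ∀ i j, kap q w (e i) 0 * c i j = c i (e i 0) * row q w (e i) j :=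
    fun i j => row_unique K hw (he i) (hcsupp i) (hcpar i) j
  have hkap : ∀ i, kap q w (e i) 0 ≠ 0 := fun i => kap_ne_zero K hw (he i) 0
  have heval : ∀ u : Fin k → L, (∀ j : Fin n, ∑ t, u t * g j ^ q ^ (t : ℕ) = 0) → u = 0 := by
    intro u hu
    have h1 := root_count K univ g hg k (by simp; omega)
      (fun t => if h : t < k then u ⟨t, h⟩ else 0) (by
        intro j _
        rw [Finset.sum_range, ← hu j]
        apply Finset.sum_congr rfl
        intro t _
        rw [dif_pos t.2, hq])
    funext t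
    have h2 := h1 t.1 t.2
    simp only [t.2, dif_pos] at h2
    exact h2
  have ha : ∀ i, c i (e i 0) ≠ 0 := by
    intro i h0
    apply hf0 i
    apply heval
    intro j
    have h1 := huniq i j
    rw [h0, zero_mul] at h1
    exact (mul_eq_zero.1 h1).resolve_left (hkap i)
  rw [Fintype.linearIndependent_iff]
  intro lam hlam
  let ρ : Fin k → L := fun i => lam i * kap q w (e i) 0 / c i (e i 0)
  have hρ : ∀ j, ∑ i, ρ i * c i j = 0 := by
    intro j
    have h1 := congrFun hlam j
    simp only [Finset.sum_apply, Pi.smul_apply, smul_eq_mul, Pi.zero_apply] at h1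
    rw [← h1]
    apply Finset.sum_congr rfl
    intro i _
    simp only [ρ]
    rw [div_mul_eq_mul_div, mul_assoc, huniq i j, div_eq_iff (ha i)]
    ring
  have hcomb : (fun t => ∑ i, ρ i * f i t) = 0 := by
    apply heval
    intro j
    rw [← hρ j]
    simp only [c, Finset.sum_mul, Finset.mul_sum]
    rw [Finset.sum_comm]
    apply Finset.sum_congr rfl
    intro i _
    apply Finset.sum_congr rfl
    intro t _
    ring
  have hsol := hind (fun i t => if h : t < k then ρ i * f i ⟨t, h⟩ else 0) (by
    refine ⟨?_, ?_, ?_⟩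
    · intro i _ t _ hts
      exact absurd hts (Nat.not_lt_zero _)
    · intro i _ l hl
      rw [Finset.mem_map] at hl
      obtain ⟨j, hj, rfl⟩ := hl
      rw [Finset.sum_range]
      have h1 := hfZ i j hj
      have h2 : ∑ t : Fin k, (if h : (t : ℕ) < k then ρ i * f i ⟨t, h⟩ else 0)
          * φ (MvPolynomial.X (Fin.valEmbedding j)) ^ Fintype.card K ^ (t : ℕ)
          = ρ i * ∑ t, f i t * g j ^ q ^ (t : ℕ) := by
        rw [Finset.mul_sum]
        apply Finset.sum_congr rfl
        intro t _
        simp only [t.2, dif_pos, g, Fin.valEmbedding_apply]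
        rw [mul_assoc]
      rw [h2, h1, mul_zero]
    · intro t ht
      have h1 := congrFun hcomb ⟨t, ht⟩
      simp only [Pi.zero_apply] at h1
      rw [← h1]
      apply Finset.sum_congr rfl
      intro i _
      rw [dif_pos ht])
  intro i
  -- pick a nonzero coordinate of f i
  obtain ⟨t, ht⟩ : ∃ t, f i t ≠ 0 := by
    by_contra hcon
    push Not at hcon
    exact hf0 i (funext hcon)
  have h1 := hsol i (mem_univ _) t.1 t.2
  simp only [t.2, dif_pos] at h1
  have h2 : ρ i = 0 := (mul_eq_zero.1 h1).resolve_right ht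
  simp only [ρ] at h2
  rw [div_eq_zero_iff] at h2
  rcases h2 with h2 | h2
  · exact (mul_eq_zero.1 h2).resolve_right (hkap i)
  · exact absurd h2 (ha i)

theorem exists_generic {n k r : ℕ} (hnk : k + r = n) (hk : 0 < k) (Z : Fin k → Finset (Fin n))
    (hZ : Star Z) (hcard : ∀ i, (Z i).card = k - 1) (e : Fin k → Fin (r + 1) → Fin n)
    (he : ∀ i, Function.Injective (e i)) (heZ : ∀ i l, e i l ∉ Z i) :
    ∃ (L : Type u) (_ : Field L) (_ : Algebra K L) (w : Fin n → L), LI K univ w ∧
      LinearIndependent L (fun i => row (Fintype.card K) w (e i)) := by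
  have hφ : Function.Injective ((algebraMap (FractionRing (MvPolynomial ℕ K))
      (AlgebraicClosure (FractionRing (MvPolynomial ℕ K)))).comp
      (algebraMap (MvPolynomial ℕ K) (FractionRing (MvPolynomial ℕ K)))) := by
    rw [RingHom.coe_comp]
    exact (algebraMap (FractionRing (MvPolynomial ℕ K)) _).injective.comp
      (IsFractionRing.injective _ _)
  have hφK : ∀ a : K, ((algebraMap (FractionRing (MvPolynomial ℕ K))
      (AlgebraicClosure (FractionRing (MvPolynomial ℕ K)))).comp
      (algebraMap (MvPolynomial ℕ K) (FractionRing (MvPolynomial ℕ K)))) (algebraMap K _ a)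
      = algebraMap K (AlgebraicClosure (FractionRing (MvPolynomial ℕ K))) a := by
    intro a
    rw [RingHom.comp_apply, ← IsScalarTower.algebraMap_apply K (MvPolynomial ℕ K)
      (FractionRing (MvPolynomial ℕ K)), ← IsScalarTower.algebraMap_apply K
      (FractionRing (MvPolynomial ℕ K))]
  obtain ⟨w, hw, h⟩ := generic_aux K hnk hk Z hZ hcard e he heZ
    (AlgebraicClosure (FractionRing (MvPolynomial ℕ K))) _ hφ hφK (by
      intro t x
      exact IsAlgClosed.exists_pow_nat_eq x (pow_pos Fintype.card_pos _))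
  exact ⟨_, inferInstance, inferInstance, w, hw, h⟩

end Pool.Agent.Q202.Gab
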