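import Pool.Agent.Q202.Gab.Gen

/-!
# The generic independence theorem
-/

namespace Pool.Agent.Q202.Gab

open Finset MvPolynomial

universe u w

variable {ι : Type w} [DecidableEq ι] {K : Type u} [Field K] [Fintype K]

theorem fr_injective {A : Type*} [CommRing A] [IsDomain A] [Algebra K A] (t : ℕ) :
    Function.Injective (fr K A t) := by
  rw [injective_iff_map_eq_zero]
  intro a ha
  rw [fr_apply] at ha
  exact (pow_eq_zero_iff (pow_ne_zero _ Fintype.card_ne_zero)).1 ha

omit [DecidableEq ι] in
/-- Division by the Frobenius. -/
theorem ind_shift {k : ℕ} {I : Finset ι} {Z : ι → Finset ℕ} {s : ι → ℕ}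
    (h0 : ∀ f, Sol (Fintype.card K) (fun l => (X l : MvPolynomial ℕ K)) (k + 1) I Z s f →
      ∀ i ∈ I, f i 0 = 0)
    (h : Ind (Fintype.card K) (fun l => (X l : MvPolynomial ℕ K)) k I Z (fun i => s i - 1)) :
    Ind (Fintype.card K) (fun l => (X l : MvPolynomial ℕ K)) (k + 1) I Z s := by
  intro f hf
  have hz := h0 f hf
  have h' := h.ext (fr K (MvPolynomial ℕ K) 1).toRingHom (fr_injective 1)
  have hsol : Sol (Fintype.card K) (fun j => (fr K (MvPolynomial ℕ K) 1).toRingHom (X j)) k I Z
      (fun i => s i - 1) (fun i t => f i (t + 1)) := by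
    refine ⟨?_, ?_, ?_⟩
    · intro i hi t ht hts
      have hts' : t < s i - 1 := hts
      exact hf.low i hi (t + 1) (by omega) (by omega)
    · intro i hi j hj
      have h1 := hf.ev i hi j hj
      rw [Finset.sum_range_succ', hz i hi, zero_mul, add_zero] at h1
      rw [← h1]
      apply Finset.sum_congr rfl
      intro t _
      have : (fr K (MvPolynomial ℕ K) 1).toRingHom (X j) = X j ^ Fintype.card K := by
        have h2 := fr_apply K 1 (X j : MvPolynomial ℕ K)
        rw [pow_one] at h2
        exact h2
      rw [this, ← pow_mul, ← pow_succ']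
    · intro t ht
      exact hf.sum (t + 1) (by omega)
  have h2 := h' _ hsol
  intro i hi t ht
  rcases Nat.eq_zero_or_pos t with rfl | hpos
  · exact hz i hi
  · obtain ⟨t', rfl⟩ := Nat.exists_eq_succ_of_ne_zero hpos.ne'
    exact h2 i hi t' (by omega)

omit [Fintype K] in
theorem X_indep (J : Finset ℕ) (c : ℕ → K)
    (h : ∑ j ∈ J, c j • (X j : MvPolynomial ℕ K) = 0) : ∀ j ∈ J, c j = 0 := by
  classical
  intro j hj
  have h1 := congrArg (coeff (Finsupp.single j 1)) h
  rw [coeff_sum, coeff_zero, Finset.sum_eq_single j] at h1
  · rw [coeff_smul, coeff_X, if_pos rfl, smul_eq_mul, mul_one] at h1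
    exact h1
  · intro b _ hb
    rw [coeff_smul, coeff_X, if_neg, smul_zero]
    intro h2
    rw [Finsupp.single_left_inj one_ne_zero] at h2
    exact hb h2
  · intro h2; exact absurd hj h2

omit [DecidableEq ι] in
/-- Counting condition for the specialised family. -/
theorem HC.spec {k : ℕ} {I : Finset ι} {Z : ι → Finset ℕ} {s : ι → ℕ} (hc : HC k I Z s)
    (hno : ∀ Ω ⊆ I, 2 ≤ Ω.card → Ω.card < I.card → ∀ μ, (∀ i ∈ Ω, μ ≤ s i) →
      ∑ i ∈ Ω, (k - ((Z i).card + s i)) + (inter Ω Z).card + μ < k)
    {j : ℕ} {i0 : ι} (hi0 : i0 ∈ I) (hs0 : s i0 = 0) (hj0 : j ∉ Z i0) :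
    HC k I (fun i => (Z i).erase j) (fun i => if j ∈ Z i then s i + 1 else s i) := by
  classical
  have ha : ∀ i, ((Z i).erase j).card + (if j ∈ Z i then s i + 1 else s i) = (Z i).card + s i := by
    intro i
    by_cases hj : j ∈ Z i
    · rw [if_pos hj, Finset.card_erase_of_mem hj]
      have : 0 < (Z i).card := Finset.card_pos.2 ⟨j, hj⟩
      omega
    · rw [if_neg hj, Finset.erase_eq_of_notMem hj]
  intro Ω hΩ hne μ hμ
  replace hμ : ∀ i ∈ Ω, μ ≤ (if j ∈ Z i then s i + 1 else s i) := hμ
  have hsum : ∑ i ∈ Ω, (k - (((Z i).erase j).card + (if j ∈ Z i then s i + 1 else s i)))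
      = ∑ i ∈ Ω, (k - ((Z i).card + s i)) := Finset.sum_congr rfl (fun i _ => by rw [ha])
  rw [hsum]
  have hint : inter Ω (fun i => (Z i).erase j) = (inter Ω Z).erase j := by
    ext l
    rw [mem_inter hne, Finset.mem_erase, mem_inter hne]
    constructor
    · intro h
      obtain ⟨i, hi⟩ := hne
      exact ⟨(Finset.mem_erase.1 (h i hi)).1, fun i hi => (Finset.mem_erase.1 (h i hi)).2⟩
    · rintro ⟨h1, h2⟩ i hi
      exact Finset.mem_erase.2 ⟨h1, h2 i hi⟩
  rw [hint]
  have hle : ((inter Ω Z).erase j).card ≤ (inter Ω Z).card :=
    Finset.card_le_card (Finset.erase_subset _ _)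
  rcases Nat.eq_zero_or_pos μ with rfl | hpos
  · have := hc Ω hΩ hne 0 (fun i _ => Nat.zero_le _)
    omega
  -- positive μ
  have hμ' : ∀ i ∈ Ω, μ - 1 ≤ s i := by
    intro i hi
    have := hμ i hi
    split_ifs at this <;> omega
  by_cases hall : ∀ i ∈ Ω, j ∈ Z i
  · have hjin : j ∈ inter Ω Z := (mem_inter hne).2 hall
    have h1 : ((inter Ω Z).erase j).card + 1 = (inter Ω Z).card := Finset.card_erase_add_one hjin
    have := hc Ω hΩ hne (μ - 1) hμ'
    omega
  · push Not at hall
    obtain ⟨i1, hi1, hj1⟩ := hall
    by_cases hone : Ω.card ≤ 1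
    · have hΩ1 : Ω = {i1} := by
        apply Finset.eq_singleton_iff_unique_mem.2
        refine ⟨hi1, fun x hx => ?_⟩
        exact Finset.card_le_one.1 hone x hx i1 hi1
      have h1 := hμ i1 hi1
      rw [if_neg hj1] at h1
      have := hc Ω hΩ hne μ (by
        intro i hi
        rw [hΩ1, Finset.mem_singleton] at hi
        subst hi
        exact h1)
      omega
    · by_cases hfull : Ω.card < I.card
      · have := hno Ω hΩ (by omega) hfull (μ - 1) hμ'
        omega
      · have hΩI : Ω = I := Finset.eq_of_subset_of_card_le hΩ (by omega)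
        have h1 := hμ i0 (hΩI ▸ hi0)
        rw [if_neg hj0, hs0] at h1
        omega

/-- The generic independence theorem. -/
theorem generic_ind : ∀ (N k : ℕ) (I : Finset ι) (J : Finset ℕ) (Z : ι → Finset ℕ) (s : ι → ℕ),
    k + I.card + J.card ≤ N → (∀ i ∈ I, Z i ⊆ J) → (∀ i ∈ I, (Z i).card + s i < k) →
    HC k I Z s → Ind (Fintype.card K) (fun l => (X l : MvPolynomial ℕ K)) k I Z s := by
  classical
  intro N
  induction N with
  | zero =>
    intro k I J Z s hN _ _ _ f _ i hi t ht
    omega
  | succ N ih =>
    intro k I J Z s hN hJ hlt hc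
    by_cases h1 : I.card ≤ 1
    · intro f hf i hi t ht
      have hI : I = {i} := by
        apply Finset.eq_singleton_iff_unique_mem.2
        exact ⟨hi, fun x hx => Finset.card_le_one.1 h1 x hx i hi⟩
      have := hf.sum t ht
      rw [hI, Finset.sum_singleton] at this
      exact this
    by_cases hA : ∀ i ∈ I, s i = 0 → Z i = J
    · -- all constant coefficients vanish
      obtain ⟨a, ha⟩ : I.Nonempty := Finset.card_pos.1 (by omega)
      obtain ⟨k', rfl⟩ : ∃ k', k = k' + 1 := ⟨k - 1, by have := hlt a ha; omega⟩
      have huniq : ∀ i ∈ I, ∀ i' ∈ I, s i = 0 → s i' = 0 → i = i' := by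
        intro i hi i' hi' h2 h3
        by_contra hne
        have h4 := hc {i, i'} (by
          intro x hx
          rw [Finset.mem_insert, Finset.mem_singleton] at hx
          rcases hx with rfl | rfl <;> assumption) ⟨i, by simp⟩ 0 (fun _ _ => Nat.zero_le _)
        have h5 : inter {i, i'} Z = J := by
          ext l
          rw [mem_inter ⟨i, by simp⟩]
          simp [hA i hi h2, hA i' hi' h3]
        rw [Finset.sum_pair hne, h5, hA i hi h2, hA i' hi' h3, h2, h3] at h4
        have h6 := hlt i hi
        rw [hA i hi h2, h2] at h6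
        omega
      have hz : ∀ f, Sol (Fintype.card K) (fun l => (X l : MvPolynomial ℕ K)) (k' + 1) I Z s f →
          ∀ i ∈ I, f i 0 = 0 := by
        intro f hf i hi
        by_cases hsi : s i = 0
        · have h2 := hf.sum 0 (by omega)
          rw [Finset.sum_eq_single i] at h2
          · exact h2
          · intro b hb hbi
            apply hf.low b hb 0 (by omega)
            rcases Nat.eq_zero_or_pos (s b) with h3 | h3
            · exact absurd (huniq b hb i hi h3 hsi) hbi
            · exact h3
          · intro h3; exact absurd hi h3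
        · exact hf.low i hi 0 (by omega) (by omega)
      by_cases hB : ∃ i0 ∈ I, s i0 = 0 ∧ J.card = k'
      · obtain ⟨i0, hi0, hs0, hJk⟩ := hB
        -- f i0 = 0
        have hf0 : ∀ f, Sol (Fintype.card K) (fun l => (X l : MvPolynomial ℕ K)) (k' + 1) I Z s f →
            ∀ t < k' + 1, f i0 t = 0 := by
          intro f hf
          have h2 := root_count K J (fun j => fr K (MvPolynomial ℕ K) 1 (X j)) (by
            intro c hcc
            have h3 : fr K (MvPolynomial ℕ K) 1 (∑ j ∈ J, c j • X j) = 0 := by
              rw [map_sum]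
              simpa using hcc
            have h4 := (injective_iff_map_eq_zero _).1 (fr_injective (K := K) 1) _ h3
            exact X_indep J c h4) k' (by omega) (fun t => f i0 (t + 1)) (by
            intro j hj
            have h3 := hf.ev i0 hi0 j (by rw [hA i0 hi0 hs0]; exact hj)
            rw [Finset.sum_range_succ', hz f hf i0 hi0, zero_mul, add_zero] at h3
            rw [← h3]
            apply Finset.sum_congr rfl
            intro t _
            rw [fr_apply, pow_one, ← pow_mul, ← pow_succ'])
          intro t ht
          rcases Nat.eq_zero_or_pos t with rfl | hpos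
          · exact hz f hf i0 hi0
          · obtain ⟨t', rfl⟩ := Nat.exists_eq_succ_of_ne_zero hpos.ne'
            exact h2 t' (by omega)
        have hrest := ih (k' + 1) (I.erase i0) J Z s (by
          have := Finset.card_erase_add_one hi0
          omega) (fun i hi => hJ i (Finset.mem_of_mem_erase hi))
          (fun i hi => hlt i (Finset.mem_of_mem_erase hi)) (hc.mono (Finset.erase_subset _ _))
        intro f hf i hi t ht
        by_cases hii : i = i0
        · subst hii; exact hf0 f hf t ht
        · refine hrest f (hf.mono_zero (Finset.erase_subset _ _) ?_) i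
            (Finset.mem_erase.2 ⟨hii, hi⟩) t ht
          intro t ht
          have h2 := hf.sum t ht
          rw [← Finset.add_sum_erase _ _ hi0, hf0 f hf t ht, zero_add] at h2
          exact h2
      · push Not at hB
        refine ind_shift hz ?_
        refine ih k' I J Z (fun i => s i - 1) (by omega) hJ ?_ ?_
        · intro i hi
          have h2 := hlt i hi
          show (Z i).card + (s i - 1) < k'
          rcases Nat.eq_zero_or_pos (s i) with h3 | h3
          · have h4 := hB i hi h3
            have h5 := hA i hi h3
            rw [h5] at h2 ⊢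
            omega
          · omega
        · intro Ω hΩ hne μ hμ
          by_cases hzero : ∃ i0 ∈ Ω, s i0 = 0
          · obtain ⟨i0, hi0, hs0⟩ := hzero
            have hμ0 : μ = 0 := by
              have := hμ i0 hi0
              simp only [hs0] at this
              omega
            subst hμ0
            have h2 := hc Ω hΩ hne 0 (fun _ _ => Nat.zero_le _)
            rw [← Finset.add_sum_erase _ _ hi0] at h2 ⊢
            have h3 : ∑ x ∈ Ω.erase i0, (k' - ((Z x).card + (s x - 1)))
                = ∑ x ∈ Ω.erase i0, (k' + 1 - ((Z x).card + s x)) := by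
              apply Finset.sum_congr rfl
              intro x hx
              have h4 : s x ≠ 0 := by
                intro h5
                exact (Finset.mem_erase.1 hx).1
                  (huniq x (hΩ (Finset.mem_of_mem_erase hx)) i0 (hΩ hi0) h5 hs0)
              omega
            rw [h3]
            have h4 := hlt i0 (hΩ hi0)
            have h5 := hB i0 (hΩ hi0) hs0
            rw [← hA i0 (hΩ hi0) hs0] at h5
            have h6 : (fun i => s i - 1) i0 = 0 := by simp [hs0]
            rw [hs0] at h2 h4
            simp only [hs0]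
            omega
          · push Not at hzero
            have h2 := hc Ω hΩ hne (μ + 1) (by
              intro i hi
              have h3 := hμ i hi
              have h4 := hzero i hi
              have h5 : μ ≤ s i - 1 := h3
              omega)
            have h3 : ∑ x ∈ Ω, (k' - ((Z x).card + (s x - 1)))
                = ∑ x ∈ Ω, (k' + 1 - ((Z x).card + s x)) := by
              apply Finset.sum_congr rfl
              intro x hx
              have h4 := hzero x hx
              omega
            rw [h3]
            omega
    · push Not at hA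
      obtain ⟨i0, hi0, hs0, hZ0⟩ := hA
      obtain ⟨j, hjJ, hj0⟩ : ∃ j ∈ J, j ∉ Z i0 := by
        by_contra hcon
        push Not at hcon
        exact hZ0 (Finset.Subset.antisymm (hJ i0 hi0) hcon)
      by_cases htight : ∃ Ω ⊆ I, 2 ≤ Ω.card ∧ Ω.card < I.card ∧ ∃ μ, (∀ i ∈ Ω, μ ≤ s i) ∧
          k ≤ ∑ i ∈ Ω, (k - ((Z i).card + s i)) + (inter Ω Z).card + μ
      · obtain ⟨Ω, hΩI, h2, h3, μ, hμ, ht⟩ := htight
        obtain ⟨i1, hi1⟩ : Ω.Nonempty := Finset.card_pos.1 (by omega)
        have hne : Ω.Nonempty := ⟨i1, hi1⟩
        have heq : ∑ i ∈ Ω, (k - ((Z i).card + s i)) + (inter Ω Z).card + μ = k :=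
          le_antisymm (hc Ω hΩI hne μ hμ) ht
        have hge : 1 ≤ ∑ i ∈ Ω, (k - ((Z i).card + s i)) := by
          have h4 : k - ((Z i1).card + s i1) ≤ ∑ i ∈ Ω, (k - ((Z i).card + s i)) :=
            Finset.single_le_sum (f := fun i => k - ((Z i).card + s i))
              (fun _ _ => Nat.zero_le _) hi1
          have := hlt i1 (hΩI hi1)
          omega
        have hnot : i1 ∉ I \ Ω := by simp [hi1]
        have hcard : (insert i1 (I \ Ω)).card + Ω.card = I.card + 1 := by
          rw [Finset.card_insert_of_notMem hnot]
          have := Finset.card_sdiff_add_card_eq_card hΩI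
          omega
        refine contract hΩI hi1 hμ ?_ ?_
        · refine ih k _ J _ _ (by omega) ?_ ?_ (hc.contract hΩI hi1 hμ ht)
          · intro i hi
            rcases Finset.mem_insert.1 hi with rfl | hi'
            · rw [Function.update_self]
              intro l hl
              exact hJ i (hΩI hi1) ((mem_inter hne).1 hl i hi1)
            · have : i ≠ i1 := by rintro rfl; exact hnot hi'
              rw [Function.update_of_ne this]
              exact hJ i (Finset.mem_sdiff.1 hi').1
          · intro i hi
            rcases Finset.mem_insert.1 hi with rfl | hi'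
            · rw [Function.update_self, Function.update_self]
              omega
            · have : i ≠ i1 := by rintro rfl; exact hnot hi'
              rw [Function.update_of_ne this, Function.update_of_ne this]
              exact hlt i (Finset.mem_sdiff.1 hi').1
        · exact ih k Ω J Z s (by omega) (fun i hi => hJ i (hΩI hi)) (fun i hi => hlt i (hΩI hi))
            (hc.mono hΩI)
      · push Not at htight
        have hsp := hc.spec (fun Ω h2 h3 h4 μ h5 => htight Ω h2 h3 h4 μ h5) hi0 hs0 hj0
        refine ind_of_spec j (fun i hi => by have := hlt i hi; omega) ?_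
        refine ih k I (J.erase j) _ _ (by
          have := Finset.card_erase_add_one hjJ
          omega) ?_ ?_ hsp
        · intro i hi
          exact Finset.erase_subset_erase _ (hJ i hi)
        · intro i hi
          have h2 := hlt i hi
          show ((Z i).erase j).card + (if j ∈ Z i then s i + 1 else s i) < k
          by_cases hj : j ∈ Z i
          · rw [if_pos hj, Finset.card_erase_of_mem hj]
            have : 0 < (Z i).card := Finset.card_pos.2 ⟨j, hj⟩
            omega
          · rw [if_neg hj, Finset.erase_eq_of_notMem hj]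
            exact h2

end Pool.Agent.Q202.Gab
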