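import Pool.Agent.Q202.Gab.Row

/-!
# Choosing the parity check elements in a small field
-/

namespace Pool.Agent.Q202.Gab

open Finset MvPolynomial

universe u v w

section Deg

variable {σ : Type*} {R : Type u} [CommRing R]

theorem degreeOf_det_le {m : ℕ} (M : Matrix (Fin m) (Fin m) (MvPolynomial σ R)) (s : σ)
    (d : Fin m → ℕ) (h : ∀ a b, degreeOf s (M a b) ≤ d b) : degreeOf s M.det ≤ ∑ b, d b := by
  rw [Matrix.det_apply']
  refine (degreeOf_sum_le _ _ _).trans (Finset.sup_le ?_)
  intro τ _
  refine (degreeOf_mul_le _ _ _).trans ?_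
  have h1 : degreeOf s ((((Equiv.Perm.sign τ : ℤˣ) : ℤ) : MvPolynomial σ R)) = 0 := by
    have : (((Equiv.Perm.sign τ : ℤˣ) : ℤ) : MvPolynomial σ R)
        = C ((((Equiv.Perm.sign τ : ℤˣ) : ℤ) : R)) := by simp
    rw [this, degreeOf_C]
  rw [h1, zero_add]
  refine (degreeOf_prod_le _ _ _).trans ?_
  exact Finset.sum_le_sum (fun b _ => h _ b)

theorem degreeOf_map_le {S : Type v} [CommRing S] (φ : R →+* S) (s : σ) (p : MvPolynomial σ R) :
    degreeOf s (MvPolynomial.map φ p) ≤ degreeOf s p := by
  rw [degreeOf_le_iff]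
  intro m hm
  exact (degreeOf_le_iff.1 le_rfl) m (MvPolynomial.support_map_subset φ p hm)

end Deg

section

variable {n k r : ℕ}

/-- The index set of the variables. -/
abbrev Vr (n k : ℕ) := Fin n ⊕ (Fin n × Fin k)

variable (R : Type u) [CommRing R] (q : ℕ)

/-- The variables of the parity check elements. -/
noncomputable def Wv (n k : ℕ) : Fin n → MvPolynomial (Vr n k) R := fun j => X (Sum.inl j)

/-- The matrix of the codewords. -/
noncomputable def Cm (e : Fin k → Fin (r + 1) → Fin n) :
    Matrix (Fin k) (Fin n) (MvPolynomial (Vr n k) R) :=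
  Matrix.of fun i j => row q (Wv R n k) (e i) j

/-- The matrix of auxiliary variables. -/
noncomputable def Bm (n k : ℕ) : Matrix (Fin n) (Fin k) (MvPolynomial (Vr n k) R) :=
  Matrix.of fun j i => X (Sum.inr (j, i))

/-- The Moore matrix. -/
noncomputable def Mm (n k : ℕ) : Matrix (Fin n) (Fin n) (MvPolynomial (Vr n k) R) :=
  Matrix.of fun t i => Wv R n k i ^ q ^ (t : ℕ)

/-- The polynomial that must not vanish. -/
noncomputable def Pol (e : Fin k → Fin (r + 1) → Fin n) : MvPolynomial (Vr n k) R :=
  (Cm R q e * Bm R n k).det * (Mm R q n k).det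

theorem eval_Pol {S : Type v} [CommRing S] (φ : MvPolynomial (Vr n k) R →+* S)
    (e : Fin k → Fin (r + 1) → Fin n) :
    φ (Pol R q e) = (Matrix.of (fun i j => row q (fun l => φ (X (Sum.inl l))) (e i) j) *
      (Matrix.of fun j i => φ (X (Sum.inr (j, i))) : Matrix (Fin n) (Fin k) S)).det *
      (Matrix.of fun t i : Fin n => φ (X (Sum.inl i)) ^ q ^ (t : ℕ)).det := by
  unfold Pol
  rw [map_mul, RingHom.map_det, RingHom.map_det]
  congr 2
  · ext a b
    simp only [RingHom.mapMatrix_apply, Matrix.map_apply, Matrix.mul_apply, Cm, Bm,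
      Matrix.of_apply, map_sum, map_mul, row_map]
    rfl
  · ext a b
    simp only [RingHom.mapMatrix_apply, Matrix.map_apply, Mm, Matrix.of_apply, map_pow, Wv]

variable {R} {q}

theorem degreeOf_W_pow_le [Nontrivial R] (s : Vr n k) (j : Fin n) (t : ℕ) :
    degreeOf s (Wv R n k j ^ q ^ t) ≤ if s = Sum.inl j then q ^ t else 0 := by
  classical
  by_cases h : s = Sum.inl j
  · rw [if_pos h]
    refine (degreeOf_pow_le _ _ _).trans ?_
    unfold Wv
    rw [h, degreeOf_X_self, mul_one]
  · rw [if_neg h]
    unfold Wv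
    rw [degreeOf_X_pow_of_ne _ h]

theorem degreeOf_kap_le [Nontrivial R] (hq : 1 < q) (s : Vr n k) {e : Fin (r + 1) → Fin n}
    (he : Function.Injective e) (l : Fin (r + 1)) :
    degreeOf s (kap q (Wv R n k) e l) ≤ if (∃ j, s = Sum.inl j) then q ^ r - 1 else 0 := by
  classical
  unfold kap
  refine (degreeOf_mul_le _ _ _).trans ?_
  have h1 : degreeOf s ((-1 : MvPolynomial (Vr n k) R) ^ (r + (l : ℕ))) = 0 := by
    have : (-1 : MvPolynomial (Vr n k) R) ^ (r + (l : ℕ)) = C ((-1) ^ (r + (l : ℕ))) := by simp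
    rw [this, degreeOf_C]
  rw [h1, zero_add]
  refine (degreeOf_det_le _ s (fun b => if s = Sum.inl (e (l.succAbove b)) then q ^ (r - 1) else 0)
    (fun a b => ?_)).trans ?_
  · rw [Matrix.of_apply]
    refine (degreeOf_W_pow_le s _ _).trans ?_
    split_ifs
    · exact Nat.pow_le_pow_right (by omega) (by omega)
    · exact le_rfl
  · split_ifs with h
    · obtain ⟨j, rfl⟩ := h
      by_cases hex : ∃ b : Fin r, e (l.succAbove b) = j
      · obtain ⟨b, hb⟩ := hex
        rw [Finset.sum_eq_single b]
        · rw [if_pos (by rw [hb])]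
          have hr : 0 < r := b.pos
          obtain ⟨r', rfl⟩ := Nat.exists_eq_succ_of_ne_zero hr.ne'
          have h2 : 0 < q ^ r' := pow_pos (by omega) _
          simp only [Nat.succ_eq_add_one, Nat.add_sub_cancel]
          rw [pow_succ]
          have h3 : q ^ r' * 2 ≤ q ^ r' * q := Nat.mul_le_mul_left _ hq
          omega
        · intro b' _ hb'
          rw [if_neg]
          intro h2
          have h3 := Sum.inl.inj h2
          rw [← hb] at h3
          exact hb' (Fin.succAbove_right_injective (he h3)).symm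
        · intro h2; exact absurd (mem_univ _) h2
      · rw [Finset.sum_eq_zero]
        · exact Nat.zero_le _
        · intro b _
          rw [if_neg]
          intro h2
          exact hex ⟨b, (Sum.inl.inj h2).symm⟩
    · rw [Finset.sum_eq_zero]
      intro b _
      rw [if_neg]
      intro h2
      exact h ⟨_, h2⟩

theorem degreeOf_CB_le [Nontrivial R] (hq : 1 < q) (s : Vr n k) {e : Fin k → Fin (r + 1) → Fin n}
    (he : ∀ i, Function.Injective (e i)) (a b : Fin k) :
    degreeOf s ((Cm R q e * Bm R n k) a b) ≤ if (∃ j, s = Sum.inl j) then q ^ r - 1 else 1 := by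
  classical
  rw [Matrix.mul_apply]
  refine (degreeOf_sum_le _ _ _).trans (Finset.sup_le ?_)
  intro j _
  refine (degreeOf_mul_le _ _ _).trans ?_
  have h1 : degreeOf s (Cm R q e a j) ≤ if (∃ j, s = Sum.inl j) then q ^ r - 1 else 0 := by
    unfold Cm row
    rw [Matrix.of_apply]
    refine (degreeOf_sum_le _ _ _).trans (Finset.sup_le ?_)
    intro l _
    by_cases h2 : e a l = j
    · rw [if_pos h2]
      exact degreeOf_kap_le hq s (he a) l
    · rw [if_neg h2, degreeOf_zero]
      exact Nat.zero_le _
  have h2 : degreeOf s (Bm R n k j b) ≤ if (∃ j, s = Sum.inl j) then 0 else 1 := by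
    unfold Bm
    rw [Matrix.of_apply]
    split_ifs with h
    · obtain ⟨j', rfl⟩ := h
      rw [degreeOf_X_of_ne]
      exact Sum.inl_ne_inr
    · by_cases h3 : s = Sum.inr (j, b)
      · rw [h3, degreeOf_X_self]
      · rw [degreeOf_X_of_ne h3]
        exact Nat.zero_le _
  split_ifs at h1 h2 ⊢ <;> omega

theorem degreeOf_Pol_le [Nontrivial R] (hq : 1 < q) (s : Vr n k) {e : Fin k → Fin (r + 1) → Fin n}
    (he : ∀ i, Function.Injective (e i)) :
    degreeOf s (Pol R q e) ≤
      if (∃ j, s = Sum.inl j) then k * (q ^ r - 1) + q ^ (n - 1) else k := by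
  classical
  unfold Pol
  refine (degreeOf_mul_le _ _ _).trans ?_
  have h1 : degreeOf s (Cm R q e * Bm R n k).det
      ≤ k * (if (∃ j, s = Sum.inl j) then q ^ r - 1 else 1) := by
    refine (degreeOf_det_le _ s _ (fun a b => degreeOf_CB_le hq s he a b)).trans ?_
    rw [Finset.sum_const, Finset.card_univ, Fintype.card_fin, smul_eq_mul]
  have h2 : degreeOf s (Mm R q n k).det ≤ if (∃ j, s = Sum.inl j) then q ^ (n - 1) else 0 := by
    refine (degreeOf_det_le _ s (fun b => if s = Sum.inl b then q ^ (n - 1) else 0)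
      (fun a b => ?_)).trans ?_
    · unfold Mm
      rw [Matrix.of_apply]
      refine (degreeOf_W_pow_le s _ _).trans ?_
      split_ifs
      · exact Nat.pow_le_pow_right (by omega) (by omega)
      · exact le_rfl
    · split_ifs with h
      · obtain ⟨j, rfl⟩ := h
        rw [Finset.sum_eq_single j]
        · rw [if_pos rfl]
        · intro b _ hb
          rw [if_neg]
          intro h3
          exact hb (Sum.inl.inj h3).symm
        · intro h3; exact absurd (mem_univ _) h3
      · rw [Finset.sum_eq_zero]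
        intro b _
        rw [if_neg]
        intro h3
        exact h ⟨_, h3⟩
  split_ifs at h1 h2 ⊢ <;> omega

end

theorem num_bound {q k r n m : ℕ} (hq : 1 < q) (hk : 0 < k) (hn : k + r = n) (hm : n ≤ m) :
    k * (q ^ r - 1) + q ^ (n - 1) < q ^ m := by
  have h1 : k ≤ q ^ (k - 1) := by
    have h2 : k - 1 < 2 ^ (k - 1) := Nat.lt_two_pow_self
    have h3 : 2 ^ (k - 1) ≤ q ^ (k - 1) := Nat.pow_le_pow_left hq _
    omega
  have h4 : k * (q ^ r - 1) < q ^ (n - 1) := by
    have hr : 0 < q ^ r := pow_pos (by omega) _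
    calc k * (q ^ r - 1) < k * q ^ r := Nat.mul_lt_mul_of_pos_left (by omega) hk
      _ ≤ q ^ (k - 1) * q ^ r := Nat.mul_le_mul_right _ h1
      _ = q ^ (n - 1) := by rw [← pow_add]; congr 1; omega
  calc k * (q ^ r - 1) + q ^ (n - 1) < q ^ (n - 1) + q ^ (n - 1) := by omega
    _ = q ^ (n - 1) * 2 := by ring
    _ ≤ q ^ (n - 1) * q := Nat.mul_le_mul_left _ hq
    _ = q ^ n := by rw [← pow_succ]; congr 1; omega
    _ ≤ q ^ m := Nat.pow_le_pow_right (by omega) hm

variable (K : Type u) [Field K] [Fintype K]

theorem exists_point {n k r : ℕ} (hnk : k + r = n) (hk : 0 < k) (e : Fin k → Fin (r + 1) → Fin n)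
    (he : ∀ i, Function.Injective (e i))
    (L : Type v) [Field L] [Algebra K L] (w0 : Fin n → L) (hw0 : LI K univ w0)
    (hrow : LinearIndependent L (fun i => row (Fintype.card K) w0 (e i)))
    (F : Type w) [Field F] [Fintype F] [Algebra K F] (hm : n ≤ Module.finrank K F) :
    ∃ w : Fin n → F, LI K univ w ∧ LinearIndependent F (fun i => row (Fintype.card K) w (e i)) := by
  classical
  set q := Fintype.card K with hq
  have hq1 : 1 < q := one_lt_q K
  -- the polynomial is nonzero
  have hP : Pol K q e ≠ 0 := by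
    let T : (Fin k → L) →ₗ[L] (Fin n → L) := Fintype.linearCombination L
      (fun i => row q w0 (e i))
    have hT : LinearMap.ker T = ⊥ := by
      rw [LinearMap.ker_eq_bot]
      exact linearIndependent_iff_injective_fintypeLinearCombination.1 hrow
    obtain ⟨G, hG⟩ := T.exists_leftInverse_of_injective hT
    let Bv : Fin n → Fin k → L := fun j i => G (Pi.single j 1) i
    have hCB : (Matrix.of (fun i j => row q w0 (e i) j) : Matrix (Fin k) (Fin n) L) *
        (Matrix.of Bv) = 1 := by
      ext a b
      rw [Matrix.mul_apply, Matrix.one_apply]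
      simp only [Matrix.of_apply, Bv]
      have h1 := congrArg (fun g : (Fin k → L) →ₗ[L] (Fin k → L) => g (Pi.single a 1) b) hG
      simp only [LinearMap.comp_apply, LinearMap.id_apply] at h1
      have h2 : T (Pi.single a 1) = ∑ j, row q w0 (e a) j • (Pi.single j 1 : Fin n → L) := by
        have h3 : T (Pi.single a 1) = row q w0 (e a) := by
          simp only [T]
          rw [Fintype.linearCombination_apply_single, one_smul]
        rw [h3]
        funext j
        simp [Finset.sum_apply, Pi.single_apply]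
      rw [h2, map_sum] at h1
      simp only [map_smul, Finset.sum_apply, Pi.smul_apply, smul_eq_mul] at h1
      rw [h1, Pi.single_apply]
      by_cases hab : a = b
      · rw [if_pos hab, if_pos hab.symm]
      · rw [if_neg hab, if_neg (Ne.symm hab)]
    intro h0
    let x : Vr n k → L := Sum.elim w0 (fun p => Bv p.1 p.2)
    have h1 := eval_Pol K q (aeval x : MvPolynomial (Vr n k) K →ₐ[K] L).toRingHom e
    rw [h0, map_zero] at h1
    have h2 : ∀ s, (aeval x : MvPolynomial (Vr n k) K →ₐ[K] L).toRingHom (X s) = x s := by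
      intro s
      simp
    simp only [h2] at h1
    have h3 : (Matrix.of (fun i j => row q (fun l => x (Sum.inl l)) (e i) j) *
      (Matrix.of fun j i => x (Sum.inr (j, i)) : Matrix (Fin n) (Fin k) L)).det = 1 := by
      have : (Matrix.of (fun i j => row q (fun l => x (Sum.inl l)) (e i) j) *
        (Matrix.of fun j i => x (Sum.inr (j, i)) : Matrix (Fin n) (Fin k) L)) = 1 := hCB
      rw [this, Matrix.det_one]
    rw [h3, one_mul] at h1
    exact moore_det_ne_zero K w0 hw0 h1.symm
  have hPF : MvPolynomial.map (algebraMap K F) (Pol K q e) ≠ 0 := by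
    intro h0
    apply hP
    apply MvPolynomial.map_injective (algebraMap K F) (algebraMap K F).injective
    rw [h0, map_zero]
  have hcardF : q ^ n ≤ Fintype.card F := by
    rw [Module.card_eq_pow_finrank (K := K) (V := F)]
    exact Nat.pow_le_pow_right (by omega) hm
  obtain ⟨m, hmm⟩ : ∃ m, n ≤ m ∧ Fintype.card F = q ^ m :=
    ⟨Module.finrank K F, hm, Module.card_eq_pow_finrank (K := K) (V := F)⟩
  have hex : ∃ x : Vr n k → F, eval x (MvPolynomial.map (algebraMap K F) (Pol K q e)) ≠ 0 := by
    by_contra hcon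
    push Not at hcon
    apply hPF
    apply MvPolynomial.eq_zero_of_eval_zero_at_prod_finset _ (fun _ => (univ : Finset F))
    · intro s
      refine lt_of_le_of_lt ((degreeOf_map_le _ s _).trans (degreeOf_Pol_le hq1 s he)) ?_
      rw [Finset.card_univ, hmm.2]
      split_ifs
      · exact num_bound hq1 hk hnk hmm.1
      · have h1 : k < 2 ^ k := Nat.lt_two_pow_self
        have h2 : 2 ^ k ≤ q ^ k := Nat.pow_le_pow_left hq1 _
        have h3 : q ^ k ≤ q ^ m := Nat.pow_le_pow_right (by omega) (by omega)
        omega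
    · intro x _
      exact hcon x
  obtain ⟨x, hx⟩ := hex
  have h1 := eval_Pol K q ((eval x).comp (MvPolynomial.map (algebraMap K F))) e
  rw [RingHom.comp_apply] at h1
  have h2 : ∀ s, ((eval x).comp (MvPolynomial.map (algebraMap K F))) (X s) = x s := by
    intro s
    simp
  simp only [h2] at h1
  rw [h1] at hx
  have hx1 := left_ne_zero_of_mul hx
  have hx2 := right_ne_zero_of_mul hx
  refine ⟨fun l => x (Sum.inl l), ?_, ?_⟩
  · intro c hc j _
    by_contra hcj
    apply hx2
    rw [← Matrix.exists_mulVec_eq_zero_iff]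
    refine ⟨fun j => algebraMap K F (c j), ?_, ?_⟩
    · intro h3
      have h4 := congrFun h3 j
      simp only [Pi.zero_apply] at h4
      exact hcj ((map_eq_zero _).1 h4)
    · funext t
      simp only [Matrix.mulVec, dotProduct, Matrix.of_apply, Pi.zero_apply]
      have h3 : (∑ j, c j • x (Sum.inl j)) ^ q ^ (t : ℕ) = 0 := by
        rw [hc]
        exact zero_pow (pow_ne_zero _ Fintype.card_ne_zero)
      rw [sum_pow K] at h3
      rw [← h3]
      apply Finset.sum_congr rfl
      intro j _
      rw [smul_pow' K, Algebra.smul_def, mul_comm]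
  · rw [Fintype.linearIndependent_iff]
    intro lam hlam i
    by_contra hi
    apply hx1
    rw [← Matrix.exists_vecMul_eq_zero_iff]
    refine ⟨lam, fun h3 => hi (congrFun h3 i), ?_⟩
    rw [← Matrix.vecMul_vecMul]
    have h3 : Matrix.vecMul lam (Matrix.of (fun i j => row q (fun l => x (Sum.inl l)) (e i) j)) = 0 := by
      rw [← hlam]
      funext j
      simp [Matrix.vecMul, dotProduct, Finset.sum_apply]
    rw [h3, Matrix.zero_vecMul]

end Pool.Agent.Q202.Gab
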