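import Pool.Agent.Q202.Gab.Basic
import Pool.Agent.Q202.Gab.Ext

/-!
# Specialising one of the generic points to zero
-/

namespace Pool.Agent.Q202.Gab

open Finset MvPolynomial

universe u w

variable {K : Type u} [Field K] [Fintype K] {ι : Type w}

/-- The substitution `X j := 0`. -/
noncomputable def kill (K : Type u) [Field K] (j : ℕ) : MvPolynomial ℕ K →ₐ[K] MvPolynomial ℕ K :=
  MvPolynomial.aeval (fun l => if l = j then 0 else X l)

omit [Fintype K] in
theorem kill_X_self (j : ℕ) : kill K j (X j) = 0 := by simp [kill]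

omit [Fintype K] in
theorem kill_X_ne {j l : ℕ} (h : l ≠ j) : kill K j (X l) = X l := by simp [kill, h]

theorem X_dvd_sub_kill (j : ℕ) (p : MvPolynomial ℕ K) : X j ∣ p - kill K j p := by
  induction p using MvPolynomial.induction_on with
  | C a =>
    have : kill K j (C a) = C a := by simp [kill]
    rw [this, sub_self]
    exact dvd_zero _
  | add p r hp hr =>
    rw [map_add]
    have : p + r - (kill K j p + kill K j r) = (p - kill K j p) + (r - kill K j r) := by ring
    rw [this]
    exact dvd_add hp hr
  | mul_X p l hp =>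
    rw [map_mul]
    by_cases h : l = j
    · subst h
      rw [kill_X_self, mul_zero, sub_zero]
      exact dvd_mul_left _ _
    · rw [kill_X_ne h, ← sub_mul]
      exact Dvd.dvd.mul_right hp _

theorem X_dvd_of_kill {j : ℕ} {p : MvPolynomial ℕ K} (h : kill K j p = 0) : X j ∣ p := by
  have := X_dvd_sub_kill j p
  rwa [h, sub_zero] at this

theorem kill_of_X_dvd {j : ℕ} {p : MvPolynomial ℕ K} (h : X j ∣ p) : kill K j p = 0 := by
  obtain ⟨c, rfl⟩ := h
  rw [map_mul, kill_X_self, zero_mul]

omit [Fintype K] in
theorem eq_zero_of_forall_X_pow_dvd {j : ℕ} {p : MvPolynomial ℕ K}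
    (h : ∀ N : ℕ, (X j : MvPolynomial ℕ K) ^ N ∣ p) : p = 0 := by
  by_contra hp
  have h1 := totalDegree_le_of_dvd_of_isDomain (h (p.totalDegree + 1)) hp
  rw [totalDegree_X_pow] at h1
  omega

/-- The lowest coefficient of a linearised polynomial vanishing at `X j` is divisible by `X j`. -/
theorem X_dvd_low {j k a : ℕ} (ha : a < k) {c : ℕ → MvPolynomial ℕ K}
    (hlow : ∀ t < k, t < a → c t = 0)
    (hev : ∑ t ∈ range k, c t * X j ^ Fintype.card K ^ t = 0) : X j ∣ c a := by
  classical
  set q := Fintype.card K with hq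
  have hq1 : 1 < q := one_lt_q K
  rw [← Finset.add_sum_erase _ _ (mem_range.2 ha)] at hev
  have h1 : (X j : MvPolynomial ℕ K) ^ (q ^ a + 1) ∣ ∑ t ∈ (range k).erase a, c t * X j ^ q ^ t := by
    apply Finset.dvd_sum
    intro t ht
    rw [Finset.mem_erase, mem_range] at ht
    rcases lt_or_gt_of_ne ht.1 with h | h
    · rw [hlow t ht.2 h, zero_mul]
      exact dvd_zero _
    · refine Dvd.dvd.mul_left ?_ _
      apply pow_dvd_pow
      exact Nat.pow_lt_pow_right hq1 h
  have h2 : (X j : MvPolynomial ℕ K) ^ (q ^ a + 1) ∣ c a * X j ^ q ^ a := by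
    have : c a * X j ^ q ^ a = - ∑ t ∈ (range k).erase a, c t * X j ^ q ^ t :=
      eq_neg_of_add_eq_zero_left hev
    rw [this]
    exact (dvd_neg).2 h1
  rw [pow_succ, mul_comm (c a)] at h2
  exact (mul_dvd_mul_iff_left (pow_ne_zero _ (X_ne_zero j))).1 h2

/-- Specialisation: if the specialised system is independent then so is the original one. -/
theorem ind_of_spec [DecidableEq ι] (j : ℕ) {k : ℕ} {I : Finset ι} {Z : ι → Finset ℕ} {s : ι → ℕ}
    (hs : ∀ i ∈ I, s i < k)
    (h : Ind (Fintype.card K) (fun l => (X l : MvPolynomial ℕ K)) k I (fun i => (Z i).erase j)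
      (fun i => if j ∈ Z i then s i + 1 else s i)) :
    Ind (Fintype.card K) (fun l => (X l : MvPolynomial ℕ K)) k I Z s := by
  classical
  have hdvd : ∀ f, Sol (Fintype.card K) (fun l => (X l : MvPolynomial ℕ K)) k I Z s f →
      ∀ i ∈ I, ∀ t < k, X j ∣ f i t := by
    intro f hf
    have hsol : Sol (Fintype.card K) (fun l => (X l : MvPolynomial ℕ K)) k I
        (fun i => (Z i).erase j) (fun i => if j ∈ Z i then s i + 1 else s i)
        (fun i t => kill K j (f i t)) := by
      refine ⟨?_, ?_, ?_⟩
      · intro i hi t ht hts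
        by_cases hj : j ∈ Z i
        · simp only [hj, if_true] at hts
          rcases Nat.lt_succ_iff_lt_or_eq.1 hts with h1 | h1
          · show kill K j (f i t) = 0
            rw [hf.low i hi t ht h1, map_zero]
          · subst h1
            exact kill_of_X_dvd (X_dvd_low (hs i hi) (fun t ht hts => hf.low i hi t ht hts)
              (hf.ev i hi j hj))
        · simp only [hj, if_false] at hts
          show kill K j (f i t) = 0
          rw [hf.low i hi t ht hts, map_zero]
      · intro i hi l hl
        rw [Finset.mem_erase] at hl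
        have h1 := congrArg (kill K j) (hf.ev i hi l hl.2)
        rw [map_zero, map_sum] at h1
        rw [← h1]
        apply Finset.sum_congr rfl
        intro t _
        rw [map_mul, map_pow, kill_X_ne hl.1]
      · intro t ht
        have h1 := congrArg (kill K j) (hf.sum t ht)
        rw [map_zero, map_sum] at h1
        exact h1
    intro i hi t ht
    exact X_dvd_of_kill (h _ hsol i hi t ht)
  have hstep : ∀ f, Sol (Fintype.card K) (fun l => (X l : MvPolynomial ℕ K)) k I Z s f →
      ∃ g, Sol (Fintype.card K) (fun l => (X l : MvPolynomial ℕ K)) k I Z s g ∧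
        ∀ i ∈ I, ∀ t < k, f i t = X j * g i t := by
    intro f hf
    have hd := hdvd f hf
    let g : ι → ℕ → MvPolynomial ℕ K := fun i t =>
      if hh : i ∈ I ∧ t < k then (hd i hh.1 t hh.2).choose else 0
    have hg : ∀ i ∈ I, ∀ t < k, f i t = X j * g i t := by
      intro i hi t ht
      have : g i t = (hd i hi t ht).choose := by
        simp only [g]
        rw [dif_pos ⟨hi, ht⟩]
      rw [this]
      exact (hd i hi t ht).choose_spec
    have hX : (X j : MvPolynomial ℕ K) ≠ 0 := X_ne_zero j
    refine ⟨g, ⟨?_, ?_, ?_⟩, hg⟩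
    · intro i hi t ht hts
      have h1 := hf.low i hi t ht hts
      rw [hg i hi t ht] at h1
      exact (mul_eq_zero.1 h1).resolve_left hX
    · intro i hi l hl
      have h1 := hf.ev i hi l hl
      have h2 : ∀ t ∈ range k, f i t * (X l : MvPolynomial ℕ K) ^ Fintype.card K ^ t
          = X j * (g i t * X l ^ Fintype.card K ^ t) := by
        intro t ht
        rw [hg i hi t (mem_range.1 ht), mul_assoc]
      rw [Finset.sum_congr rfl h2, ← Finset.mul_sum] at h1
      exact (mul_eq_zero.1 h1).resolve_left hX
    · intro t ht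
      have h1 := hf.sum t ht
      rw [Finset.sum_congr rfl (fun i hi => hg i hi t ht), ← Finset.mul_sum] at h1
      exact (mul_eq_zero.1 h1).resolve_left hX
  have hpow : ∀ N : ℕ, ∀ f, Sol (Fintype.card K) (fun l => (X l : MvPolynomial ℕ K)) k I Z s f →
      ∀ i ∈ I, ∀ t < k, (X j : MvPolynomial ℕ K) ^ N ∣ f i t := by
    intro N
    induction N with
    | zero => intro f _ i _ t _; simp
    | succ N ih =>
      intro f hf i hi t ht
      obtain ⟨g, hg, hfg⟩ := hstep f hf
      rw [hfg i hi t ht, pow_succ']
      exact mul_dvd_mul_left _ (ih g hg i hi t ht)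
  intro f hf i hi t ht
  exact eq_zero_of_forall_X_pow_dvd (fun N => hpow N f hf i hi t ht)

end Pool.Agent.Q202.Gab
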